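import Mathlib

set_option autoImplicit false

/-! Additive maps on configurations, shifts, locality; the Frobenius trick. -/

namespace Pool.Agent.R569.SOL

variable {V : Type} [AddCommGroup V]

/-- The shift by `q`. -/
def sh (q : ℤ) : AddMonoid.End (ℤ → V) where
  toFun y i := y (i + q)
  map_zero' := rfl
  map_add' _ _ := rfl

@[simp] lemma sh_apply (q : ℤ) (y : ℤ → V) (i : ℤ) : (sh q : AddMonoid.End (ℤ → V)) y i = y (i + q) :=
  rfl

lemma sh_mul (a b : ℤ) : (sh a * sh b : AddMonoid.End (ℤ → V)) = sh (a + b) := by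
  ext y i
  show y (i + a + b) = y (i + (a + b))
  rw [add_assoc]

lemma sh_zero : (sh 0 : AddMonoid.End (ℤ → V)) = 1 := by
  ext y i
  show y (i + 0) = y i
  rw [add_zero]

lemma sh_pow (a : ℤ) (n : ℕ) : (sh a : AddMonoid.End (ℤ → V)) ^ n = sh (n * a) := by
  induction n with
  | zero => simp [sh_zero]
  | succ n ih => rw [pow_succ, ih, sh_mul]; congr 1; push_cast; ring

lemma sh_commute (a b : ℤ) : Commute (sh a : AddMonoid.End (ℤ → V)) (sh b) := by
  show _ * _ = _ * _
  rw [sh_mul, sh_mul, add_comm]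

lemma sh_inj (q : ℤ) {y : ℤ → V} (h : (sh q : AddMonoid.End (ℤ → V)) y = 0) : y = 0 := by
  funext i
  have := congrFun h (i - q)
  simpa using this

/-- Vanishing outside of `[-C, C]`. -/
def Win (C : ℕ) (y : ℤ → V) : Prop := ∀ i : ℤ, (C : ℤ) < |i| → y i = 0

/-- Locality with radius `r`. -/
def Loc (F : AddMonoid.End (ℤ → V)) (r : ℕ) : Prop :=
  ∀ (y : ℤ → V) (i : ℤ), (∀ j : ℤ, |j - i| ≤ r → y j = 0) → F y i = 0

lemma Win.mono {C D : ℕ} {y : ℤ → V} (h : Win C y) (hCD : C ≤ D) : Win D y := by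
  intro i hi
  apply h
  have : (C : ℤ) ≤ D := by exact_mod_cast hCD
  omega

lemma win_zero (C : ℕ) : Win C (0 : ℤ → V) := fun _ _ => rfl

lemma Win.add {C : ℕ} {y z : ℤ → V} (h : Win C y) (h' : Win C z) : Win C (y + z) := by
  intro i hi
  simp [h i hi, h' i hi]

lemma Win.sub {C : ℕ} {y z : ℤ → V} (h : Win C y) (h' : Win C z) : Win C (y - z) := by
  intro i hi
  simp [h i hi, h' i hi]

lemma Win.neg {C : ℕ} {y : ℤ → V} (h : Win C y) : Win C (-y) := by
  intro i hi
  simp [h i hi]

lemma Win.apply {C r : ℕ} {y : ℤ → V} {F : AddMonoid.End (ℤ → V)} (hF : Loc F r) (h : Win C y) :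
    Win (C + r) (F y) := by
  intro i hi
  apply hF
  intro j hj
  apply h
  push_cast at hi
  by_contra hc
  push Not at hc
  have h1 : |i| ≤ |j| + |i - j| := by
    have := abs_add_le j (i - j)
    simpa using this
  rw [abs_sub_comm i j] at h1
  omega

lemma Win.apply_pow {C r : ℕ} {y : ℤ → V} {F : AddMonoid.End (ℤ → V)} (hF : Loc F r)
    (h : Win C y) (n : ℕ) : Win (C + n * r) ((F ^ n) y) := by
  induction n with
  | zero => simpa using h
  | succ n ih =>
    rw [pow_succ']
    show Win _ (F ((F ^ n) y))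
    have := Win.apply hF ih
    refine this.mono ?_
    ring_nf
    omega

lemma exists_win {y : ℤ → V} (h : (Function.support y).Finite) : ∃ C, Win C y := by
  obtain ⟨b, hb⟩ := (h.image (fun i : ℤ => i.natAbs)).bddAbove
  refine ⟨b, fun i hi => ?_⟩
  by_contra hc
  have := hb ⟨i, hc, rfl⟩
  simp only at this
  rw [Int.abs_eq_natAbs] at hi
  omega

lemma Win.finite {C : ℕ} {y : ℤ → V} (h : Win C y) : (Function.support y).Finite := by
  apply (Set.finite_Icc (-(C : ℤ)) C).subset
  intro i hi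
  by_contra hc
  apply hi
  apply h
  simp only [Set.mem_Icc, not_and_or, not_le] at hc
  rcases hc with hc | hc
  · exact lt_of_lt_of_le (by omega) (neg_le_abs i)
  · exact lt_of_lt_of_le hc (le_abs_self i)

lemma sh_supp_finite {y : ℤ → V} (h : (Function.support y).Finite) (q : ℤ) :
    (Function.support ((sh q : AddMonoid.End (ℤ → V)) y)).Finite := by
  have : Function.support ((sh q : AddMonoid.End (ℤ → V)) y) ⊆ (fun i => i - q) '' Function.support y := by
    intro i hi
    exact ⟨i + q, hi, by simp⟩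
  exact (h.image _).subset this

end Pool.Agent.R569.SOL
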