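import Mathlib
import Pool.Agent.R569.SOL.Basic

set_option autoImplicit false

/-! The minimal period of a soliton orbit over an elementary abelian group is bounded. -/

namespace Pool.Agent.R569.SOL

variable {V : Type} [AddCommGroup V]

lemma charP_end [Nontrivial V] {p : ℕ} (hp : p.Prime) (hV : ∀ v : V, p • v = 0) :
    CharP (AddMonoid.End (ℤ → V)) p := by
  have : Nontrivial (AddMonoid.End (ℤ → V)) := by
    obtain ⟨v, hv⟩ := exists_ne (0 : V)
    refine ⟨1, 0, fun h => hv ?_⟩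
    have := DFunLike.congr_fun h (fun _ => v)
    exact congrFun this 0
  rw [CharP.charP_iff_prime_eq_zero hp]
  ext y i
  rw [AddMonoid.End.natCast_apply]
  exact hV (y i)

lemma sum_pow_char {R : Type} [Ring R] (p : ℕ) [Fact p.Prime] [CharP R p] {ι : Type} (s : Finset ι)
    (f : ι → R) (h : ∀ i j, Commute (f i) (f j)) (e : ℕ) :
    (∑ i ∈ s, f i) ^ (p ^ e) = ∑ i ∈ s, (f i) ^ (p ^ e) := by
  classical
  induction s using Finset.induction_on with
  | empty =>
    simp only [Finset.sum_empty]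
    exact zero_pow (pow_ne_zero _ (Fact.out : p.Prime).ne_zero)
  | insert a s ha ih =>
    rw [Finset.sum_insert ha, Finset.sum_insert ha,
      add_pow_char_pow_of_commute p e (Commute.sum_right _ _ _ (fun i _ => h a i)), ih]

lemma comp_apply (F G : AddMonoid.End (ℤ → V)) (y : ℤ → V) : (F * G) y = F (G y) := rfl

lemma pow_fs {F : AddMonoid.End (ℤ → V)} {r : ℕ} (hF : Loc F r) {y : ℤ → V}
    (hy : (Function.support y).Finite) (n : ℕ) : (Function.support ((F ^ n) y)).Finite := by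
  obtain ⟨C, hC⟩ := exists_win hy
  exact (hC.apply_pow hF n).finite

/-- Removing a factor `p` from period and shift. -/
lemma reduce [Nontrivial V] {p : ℕ} (hp : p.Prime) (hV : ∀ v : V, p • v = 0)
    {F : AddMonoid.End (ℤ → V)} {r : ℕ} (hF : Loc F r) (hcom : ∀ q, Commute F (sh q))
    {P1 : ℕ} {q1 : ℤ} {y : ℤ → V} (hy : y ≠ 0) (hfs : (Function.support y).Finite)
    (h : (F ^ (p * P1)) y = (sh (p * q1) : AddMonoid.End (ℤ → V)) y) :
    ∃ y1 : ℤ → V, y1 ≠ 0 ∧ (Function.support y1).Finite ∧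
      (F ^ P1) y1 = (sh q1 : AddMonoid.End (ℤ → V)) y1 := by
  have := Fact.mk hp
  have := charP_end hp hV
  set θ : AddMonoid.End (ℤ → V) := sh (-q1) * F ^ P1 with hθ
  have hc1 : Commute (sh (-q1) : AddMonoid.End (ℤ → V)) (F ^ P1) := ((hcom (-q1)).pow_left P1).symm
  have h1 : (θ ^ p) y = y := by
    rw [hθ, hc1.mul_pow, ← pow_mul, mul_comm P1 p, comp_apply, h, sh_pow, ← comp_apply, sh_mul]
    have : (p : ℤ) * -q1 + p * q1 = 0 := by ring
    rw [this, sh_zero]
    rfl
  have h2 : ((θ - 1) ^ p) y = 0 := by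
    rw [sub_pow_char_of_commute p (Commute.one_right θ), one_pow]
    show (θ ^ p) y - y = 0
    rw [h1, sub_self]
  have hex : ∃ i : ℕ, ((θ - 1) ^ i) y = 0 := ⟨p, h2⟩
  have hfsi : ∀ i : ℕ, (Function.support (((θ - 1) ^ i) y)).Finite := by
    intro i
    induction i with
    | zero => simpa using hfs
    | succ i ih =>
      rw [pow_succ', comp_apply]
      show (Function.support ((sh (-q1) : AddMonoid.End (ℤ → V)) ((F ^ P1) (((θ - 1) ^ i) y)) -
        ((θ - 1) ^ i) y)).Finite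
      exact ((sh_supp_finite (pow_fs hF ih P1) _).union ih).subset (Function.support_sub _ _)
  classical
  have h3 := Nat.find_spec hex
  have h4 : Nat.find hex ≠ 0 := by
    intro h0
    rw [h0] at h3
    exact hy (by simpa using h3)
  obtain ⟨i, hi⟩ := Nat.exists_eq_succ_of_ne_zero h4
  have h5 : ((θ - 1) ^ i) y ≠ 0 := Nat.find_min hex (by omega)
  refine ⟨_, h5, hfsi i, ?_⟩
  rw [hi, Nat.succ_eq_add_one, pow_succ', comp_apply] at h3
  have h6 : θ (((θ - 1) ^ i) y) = ((θ - 1) ^ i) y := sub_eq_zero.1 h3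
  set z := ((θ - 1) ^ i) y
  have h7 : (sh q1 : AddMonoid.End (ℤ → V)) (θ z) = (sh q1 : AddMonoid.End (ℤ → V)) z := by rw [h6]
  rw [hθ, ← comp_apply, ← mul_assoc, sh_mul, add_neg_cancel, sh_zero, one_mul] at h7
  exact h7

lemma sep {ι : Type} [Fintype ι] (c : ι → ℤ) (T : ι → ℤ → V) (C : ℕ)
    (hT : ∀ k i, (C : ℤ) < |i - c k| → T k i = 0) (hsep : ∀ k k', k ≠ k' → 2 * (C : ℤ) < |c k - c k'|)
    (hsum : ∑ k, T k = 0) (k : ι) : T k = 0 := by
  classical
  funext i
  by_cases hi : (C : ℤ) < |i - c k|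
  · exact hT k i hi
  · have h1 : ∀ k', k' ≠ k → T k' i = 0 := by
      intro k' hk'
      apply hT
      have h2 := hsep k k' (Ne.symm hk')
      have h3 : |c k - c k'| ≤ |i - c k| + |i - c k'| := by
        have := abs_sub_le (c k) i (c k')
        rw [abs_sub_comm (c k) i] at this
        exact this
      omega
    have h4 := congrFun hsum i
    rw [Finset.sum_apply, Finset.sum_eq_single k (fun k' _ hk' => h1 k' hk') (by simp)] at h4
    exact h4

lemma exists_exp {p g : ℕ} (hp : p.Prime) (hg : Nat.Coprime p g) (B : ℕ) :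
    ∃ e, B < p ^ e ∧ p ^ e ≡ 1 [MOD g] := by
  have hg0 : g ≠ 0 ∨ g = 0 := by omega
  rcases hg0 with hg0 | hg0
  · refine ⟨g.totient * (B + 1), ?_, ?_⟩
    · have h1 : 1 ≤ g.totient := Nat.totient_pos.2 (Nat.pos_of_ne_zero hg0)
      calc B < 2 ^ B := Nat.lt_two_pow_self
        _ ≤ 2 ^ (g.totient * (B + 1)) := Nat.pow_le_pow_right (by norm_num) (by nlinarith)
        _ ≤ p ^ (g.totient * (B + 1)) := Nat.pow_le_pow_left hp.two_le _
    · rw [pow_mul]
      have := (Nat.ModEq.pow_totient hg).pow (B + 1)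
      rwa [one_pow] at this
  · subst hg0
    rw [Nat.coprime_zero_right] at hg
    exact absurd hg hp.one_lt.ne'

end Pool.Agent.R569.SOL
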