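import Mathlib
import Pool.Agent.R569.SOL.Period

set_option autoImplicit false

/-! The Frobenius argument. -/

namespace Pool.Agent.R569.SOL

variable {V : Type} [AddCommGroup V]

/-- Additive combinations of the powers of `G`. -/
def PG (G : AddMonoid.End (ℤ → V)) : AddSubgroup (AddMonoid.End (ℤ → V)) :=
  AddSubgroup.closure (Set.range fun b : ℕ => G ^ b)

lemma pg_comm {G T : AddMonoid.End (ℤ → V)} (hT : Commute G T) {ψ : AddMonoid.End (ℤ → V)}
    (hψ : ψ ∈ PG G) : Commute ψ T := by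
  induction hψ using AddSubgroup.closure_induction with
  | mem x hx => obtain ⟨b, rfl⟩ := hx; exact hT.pow_left b
  | zero => exact Commute.zero_left T
  | add x y _ _ hx hy => exact hx.add_left hy
  | neg x _ hx => exact hx.neg_left

lemma pg_comm' {G : AddMonoid.End (ℤ → V)} {ψ ψ' : AddMonoid.End (ℤ → V)}
    (hψ : ψ ∈ PG G) (hψ' : ψ' ∈ PG G) : Commute ψ ψ' :=
  pg_comm (pg_comm (Commute.refl G) hψ').symm hψ

lemma pow_fix {G : AddMonoid.End (ℤ → V)} {y : ℤ → V} {g : ℕ} (h : (G ^ g) y = y) (k : ℕ) :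
    (G ^ (g * k)) y = y := by
  induction k with
  | zero => simp
  | succ k ih => rw [Nat.mul_succ, pow_add, comp_apply, h, ih]

lemma frob {p : ℕ} [Fact p.Prime] [CharP (AddMonoid.End (ℤ → V)) p] {G : AddMonoid.End (ℤ → V)}
    {y : ℤ → V} {g e : ℕ} (h : (G ^ g) y = y) (he : p ^ e ≡ 1 [MOD g]) {ψ : AddMonoid.End (ℤ → V)}
    (hψ : ψ ∈ PG G) : (ψ ^ (p ^ e)) y = ψ y := by
  have hp0 : p ^ e ≠ 0 := pow_ne_zero _ (Fact.out : p.Prime).ne_zero
  obtain ⟨m, hm⟩ : ∃ m, p ^ e = 1 + g * m := by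
    have h1 : 1 ≤ p ^ e := Nat.one_le_iff_ne_zero.2 hp0
    obtain ⟨m, hm⟩ := (Nat.modEq_iff_dvd' h1).1 he.symm
    exact ⟨m, by omega⟩
  induction hψ using AddSubgroup.closure_induction with
  | mem x hx =>
    obtain ⟨b, rfl⟩ := hx
    show ((G ^ b) ^ (p ^ e)) y = (G ^ b) y
    rw [← pow_mul, hm, show b * (1 + g * m) = b + g * (b * m) by ring, pow_add, comp_apply,
      pow_fix h]
  | zero => rw [zero_pow hp0]
  | add x z hx hz ihx ihz =>
    rw [add_pow_char_pow_of_commute p e (pg_comm' hx hz)]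
    show (x ^ p ^ e) y + (z ^ p ^ e) y = x y + z y
    rw [ihx, ihz]
  | neg x hx ih =>
    have h1 : x ^ p ^ e + (-x) ^ p ^ e = 0 := by
      rw [← add_pow_char_pow_of_commute p e (Commute.neg_right (Commute.refl x)), add_neg_cancel,
        zero_pow hp0]
    rw [eq_neg_of_add_eq_zero_right h1]
    show -((x ^ p ^ e) y) = -(x y)
    rw [ih]

lemma pg_win {G : AddMonoid.End (ℤ → V)} {y : ℤ → V} {g : ℕ} (hg : 0 < g) (h : (G ^ g) y = y)
    (hfs : ∀ b, (Function.support ((G ^ b) y)).Finite) :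
    ∃ C, ∀ ψ ∈ PG G, Win C (ψ y) := by
  choose c hc using fun b => exists_win (hfs b)
  refine ⟨(Finset.range g).sup c, fun ψ hψ => ?_⟩
  induction hψ using AddSubgroup.closure_induction with
  | mem x hx =>
    obtain ⟨b, rfl⟩ := hx
    show Win _ ((G ^ b) y)
    have h1 : (G ^ b) y = (G ^ (b % g)) y := by
      conv_lhs => rw [← Nat.mod_add_div b g, pow_add, comp_apply, pow_fix h]
    rw [h1]
    exact (hc _).mono (Finset.le_sup (Finset.mem_range.2 (Nat.mod_lt _ hg)))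
  | zero => exact win_zero _
  | add x z _ _ hx hz => exact hx.add hz
  | neg x _ hx => exact hx.neg

/-- The data of the Frobenius argument. -/
structure Dat (V : Type) [AddCommGroup V] where
  p : ℕ
  hp : p.Prime
  hV : ∀ v : V, p • v = 0
  F : AddMonoid.End (ℤ → V)
  r : ℕ
  hF : Loc F r
  hcom : ∀ q, Commute F (sh q)
  P' : ℕ
  q' : ℤ
  g : ℕ
  hP' : 0 < P'
  hg : 0 < g
  hcop : IsCoprime (P' : ℤ) q'
  hpg : Nat.Coprime p g
  y : ℤ → V
  hy : y ≠ 0
  hfs : (Function.support y).Finite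
  h : (F ^ (g * P')) y = (sh (g * q') : AddMonoid.End (ℤ → V)) y

namespace Dat

variable (d : Dat V)

/-- The map with zero drift. -/
def G : AddMonoid.End (ℤ → V) := sh (-d.q') * d.F ^ d.P'

lemma shF (a : ℤ) (n : ℕ) : Commute (sh a : AddMonoid.End (ℤ → V)) (d.F ^ n) :=
  ((d.hcom a).pow_left n).symm

lemma G_pow (n : ℕ) : d.G ^ n = sh (-(n * d.q')) * d.F ^ (d.P' * n) := by
  rw [G, (d.shF _ _).mul_pow, sh_pow, ← pow_mul]
  congr 2
  ring

lemma G_fix : (d.G ^ d.g) d.y = d.y := by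
  rw [G_pow, comp_apply, mul_comm d.P' d.g, d.h, ← comp_apply, sh_mul]
  rw [neg_add_cancel, sh_zero]
  rfl

lemma GF : Commute d.G d.F :=
  ((d.hcom (-d.q')).symm).mul_left ((Commute.refl d.F).pow_left _)

lemma Gsh (a : ℤ) : Commute d.G (sh a) :=
  (sh_commute _ _).mul_left ((d.hcom a).pow_left _)

lemma G_fs (b : ℕ) : (Function.support ((d.G ^ b) d.y)).Finite := by
  rw [G_pow, comp_apply]
  exact sh_supp_finite (pow_fs d.hF d.hfs _) _

/-- The exponent of the relation. -/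
def P : ℕ := d.g * d.P'

lemma P_pos : 0 < d.P := Nat.mul_pos d.hg d.hP'

lemma rel {ψ : AddMonoid.End (ℤ → V)} (hψ : ψ ∈ PG d.G) (u : ℕ) :
    (d.F ^ (d.P * u)) (ψ d.y) = (sh (d.g * d.q' * u) : AddMonoid.End (ℤ → V)) (ψ d.y) := by
  induction u with
  | zero => simp [sh_zero]
  | succ u ih =>
    have h1 : (d.F ^ d.P) (ψ d.y) = (sh (d.g * d.q') : AddMonoid.End (ℤ → V)) (ψ d.y) := by
      have h2 : Commute ψ (d.F ^ d.P) := (pg_comm d.GF hψ).pow_right _
      have h3 : Commute ψ (sh (d.g * d.q')) := pg_comm (d.Gsh _) hψ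
      rw [← comp_apply, ← h2.eq, comp_apply]
      show ψ ((d.F ^ (d.g * d.P')) d.y) = _
      rw [d.h, ← comp_apply, h3.eq, comp_apply]
    rw [Nat.mul_succ, pow_add, comp_apply, h1, ← comp_apply, ← (d.shF _ _).eq, comp_apply, ih,
      ← comp_apply, sh_mul]
    congr 3
    push_cast
    ring

lemma injF {ψ : AddMonoid.End (ℤ → V)} (hψ : ψ ∈ PG d.G) {n : ℕ}
    (h : (d.F ^ n) (ψ d.y) = 0) : ψ d.y = 0 := by
  apply sh_inj (d.g * d.q' * n)
  rw [← d.rel hψ n]
  obtain ⟨m, hm⟩ := Nat.exists_eq_succ_of_ne_zero d.P_pos.ne'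
  rw [show d.P * n = m * n + n by rw [hm, Nat.succ_mul], pow_add, comp_apply, h, map_zero]

end Dat

end Pool.Agent.R569.SOL
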