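import Mathlib
import Pool.Agent.R569.SOL.Core

set_option autoImplicit false

/-! Independence, counting, and the bound on the period. -/

namespace Pool.Agent.R569.SOL

variable {V : Type} [AddCommGroup V]

namespace Dat

variable (d : Dat V)

/-- A bound for all supports needed. -/
lemma exists_C : ∃ C : ℕ, ∀ ψ ∈ PG d.G, ∀ a ≤ d.P, Win C ((d.F ^ a) (ψ d.y)) := by
  obtain ⟨C, hC⟩ := pg_win d.hg d.G_fix d.G_fs
  refine ⟨C + d.P * d.r, fun ψ hψ a ha => ?_⟩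
  exact ((hC ψ hψ).apply_pow d.hF a).mono (by gcongr)

lemma far {C : ℕ} (hC : ∀ ψ ∈ PG d.G, ∀ a ≤ d.P, Win C ((d.F ^ a) (ψ d.y)))
    {ψ : AddMonoid.End (ℤ → V)} (hψ : ψ ∈ PG d.G) (n : ℕ) (i : ℤ)
    (hi : (C : ℤ) < |i - -(d.g * d.q' * (n / d.P : ℕ))|) : (d.F ^ n) (ψ d.y) i = 0 := by
  have h1 : (d.F ^ n) (ψ d.y) = (sh (d.g * d.q' * (n / d.P : ℕ)) : AddMonoid.End (ℤ → V))
      ((d.F ^ (n % d.P)) (ψ d.y)) := by
    conv_lhs => rw [← Nat.mod_add_div n d.P, pow_add, comp_apply, d.rel hψ]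
    rw [← comp_apply, ← (d.shF _ _).eq, comp_apply]
  rw [h1, sh_apply]
  apply hC ψ hψ _ (Nat.mod_lt _ d.P_pos).le
  rwa [sub_neg_eq_add] at hi

lemma dist_ne {k k' a a' : ℤ} (ha : 0 ≤ a) (ha' : 0 ≤ a') (hb : a < d.P') (hb' : a' < d.P')
    (hne : ¬ (k = k' ∧ a = a')) : (d.P : ℤ) * (k - k') + d.g * d.q' * (a - a') ≠ 0 := by
  intro h0
  have hg : (d.g : ℤ) ≠ 0 := by exact_mod_cast d.hg.ne'
  have hP : (d.P : ℤ) = d.g * d.P' := by unfold P; push_cast; ring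
  have h1 : (d.P' : ℤ) * (k - k') + d.q' * (a - a') = 0 := by
    apply mul_left_cancel₀ hg
    rw [hP] at h0
    linarith
  have h2 : (d.P' : ℤ) ∣ d.q' * (a - a') := ⟨-(k - k'), by linarith⟩
  have h3 : (d.P' : ℤ) ∣ a - a' := d.hcop.dvd_of_dvd_mul_left h2
  have h4 : a - a' = 0 := by
    apply Int.eq_zero_of_abs_lt_dvd h3
    rw [abs_lt]
    constructor <;> linarith
  have h5 : a = a' := by linarith
  rw [h4, mul_zero, add_zero] at h1
  have hP'0 : (d.P' : ℤ) ≠ 0 := by exact_mod_cast d.hP'.ne'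
  have h6 : k - k' = 0 := by
    rcases mul_eq_zero.1 h1 with h | h
    · exact absurd h hP'0
    · exact h
  exact hne ⟨by linarith, h5⟩

theorem indep [Nontrivial V] (n : ℕ) (ψ : Fin n × Fin d.P' → AddMonoid.End (ℤ → V))
    (hψ : ∀ x, ψ x ∈ PG d.G)
    (hsum : (∑ x, (sh (x.1 : ℕ) * (d.F ^ (x.2 : ℕ) * ψ x) : AddMonoid.End (ℤ → V))) d.y = 0)
    (x : Fin n × Fin d.P') : ψ x d.y = 0 := by
  have := Fact.mk d.hp
  have := charP_end (V := V) d.hp d.hV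
  obtain ⟨C, hC⟩ := d.exists_C
  obtain ⟨e, he1, he2⟩ := exists_exp d.hp d.hpg (d.P * (d.g * d.q'.natAbs + 2 * C + 1))
  have hcomm : ∀ x x' : Fin n × Fin d.P',
      Commute (sh (x.1 : ℕ) * (d.F ^ (x.2 : ℕ) * ψ x) : AddMonoid.End (ℤ → V))
        (sh (x'.1 : ℕ) * (d.F ^ (x'.2 : ℕ) * ψ x')) := by
    intro x x'
    have e1 : Commute (sh (x.1 : ℕ) : AddMonoid.End (ℤ → V)) (sh (x'.1 : ℕ)) := sh_commute _ _
    have e2 := d.shF (x.1 : ℕ) (x'.2 : ℕ)
    have e2' := (d.shF (x'.1 : ℕ) (x.2 : ℕ)).symm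
    have e3 : Commute (sh (x.1 : ℕ)) (ψ x') := (pg_comm (d.Gsh _) (hψ x')).symm
    have e3' : Commute (ψ x) (sh (x'.1 : ℕ)) := pg_comm (d.Gsh _) (hψ x)
    have e4 : Commute (d.F ^ (x.2 : ℕ)) (ψ x') := ((pg_comm d.GF (hψ x')).pow_right _).symm
    have e4' : Commute (ψ x) (d.F ^ (x'.2 : ℕ)) := (pg_comm d.GF (hψ x)).pow_right _
    have e5 : Commute (d.F ^ (x.2 : ℕ)) (d.F ^ (x'.2 : ℕ)) :=
      ((Commute.refl d.F).pow_left _).pow_right _
    have e6 : Commute (ψ x) (ψ x') := pg_comm' (hψ x) (hψ x')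
    exact (e1.mul_right (e2.mul_right e3)).mul_left
      ((e2'.mul_right (e5.mul_right e4)).mul_left (e3'.mul_right (e4'.mul_right e6)))
  have hpe : d.p ^ e ≠ 0 := pow_ne_zero _ d.hp.ne_zero
  have h1 : ((∑ x, (sh (x.1 : ℕ) * (d.F ^ (x.2 : ℕ) * ψ x) : AddMonoid.End (ℤ → V))) ^ (d.p ^ e))
      d.y = 0 := by
    obtain ⟨m, hm⟩ := Nat.exists_eq_succ_of_ne_zero hpe
    rw [hm, pow_succ, comp_apply, hsum, map_zero]
  rw [sum_pow_char d.p _ _ hcomm e] at h1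
  have h2 : ∀ x : Fin n × Fin d.P',
      ((sh (x.1 : ℕ) * (d.F ^ (x.2 : ℕ) * ψ x) : AddMonoid.End (ℤ → V)) ^ (d.p ^ e)) d.y =
        (sh ((d.p ^ e : ℕ) * (x.1 : ℕ)) : AddMonoid.End (ℤ → V))
          ((d.F ^ ((x.2 : ℕ) * d.p ^ e)) (ψ x d.y)) := by
    intro x
    have e3 : Commute (sh (x.1 : ℕ)) (ψ x) := (pg_comm (d.Gsh _) (hψ x)).symm
    have e4 : Commute (d.F ^ (x.2 : ℕ)) (ψ x) := ((pg_comm d.GF (hψ x)).pow_right _).symm
    rw [((d.shF (x.1 : ℕ) (x.2 : ℕ)).mul_right e3).mul_pow, e4.mul_pow, comp_apply, comp_apply,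
      frob d.G_fix he2 (hψ x), sh_pow, ← pow_mul]
  have h3 : ∀ z : ℤ → V, (∑ x : Fin n × Fin d.P',
      ((sh (x.1 : ℕ) * (d.F ^ (x.2 : ℕ) * ψ x) : AddMonoid.End (ℤ → V)) ^ (d.p ^ e))) z =
      ∑ x : Fin n × Fin d.P',
      ((sh (x.1 : ℕ) * (d.F ^ (x.2 : ℕ) * ψ x) : AddMonoid.End (ℤ → V)) ^ (d.p ^ e)) z := by
    intro z
    exact AddMonoidHom.finsetSum_apply _ _ _
  rw [h3, Finset.sum_congr rfl (fun x _ => h2 x)] at h1
  have h4 := sep (fun x : Fin n × Fin d.P' =>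
    -(((d.p ^ e : ℕ) : ℤ) * (x.1 : ℕ) + d.g * d.q' * (((x.2 : ℕ) * d.p ^ e / d.P : ℕ) : ℤ))) _ C
    ?_ ?_ h1 x
  · have h5 := sh_inj _ h4
    exact d.injF (hψ x) h5
  · intro x i hi
    rw [sh_apply]
    apply d.far hC (hψ x)
    convert hi using 2
    ring
  · intro x x' hne
    have hne' : ¬ ((x.1 : ℕ) = ((x'.1 : ℕ) : ℤ) ∧ (x.2 : ℕ) = ((x'.2 : ℕ) : ℤ)) := by
      rintro ⟨h5, h6⟩
      apply hne
      ext
      · exact_mod_cast h5
      · exact_mod_cast h6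
    have hD := d.dist_ne (k := (x.1 : ℕ)) (k' := (x'.1 : ℕ)) (a := (x.2 : ℕ)) (a' := (x'.2 : ℕ))
      (by positivity) (by positivity) (by exact_mod_cast x.2.2) (by exact_mod_cast x'.2.2) hne'
    set X : ℤ := ((d.p ^ e : ℕ) : ℤ) with hX
    have hdiv : ∀ a : ℕ, (d.P : ℤ) * ((a * d.p ^ e / d.P : ℕ) : ℤ) =
        a * X - ((a * d.p ^ e % d.P : ℕ) : ℤ) := by
      intro a
      have := Nat.mod_add_div (a * d.p ^ e) d.P
      have h7 : ((a * d.p ^ e % d.P : ℕ) : ℤ) + (d.P : ℤ) * ((a * d.p ^ e / d.P : ℕ) : ℤ) =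
        ((a * d.p ^ e : ℕ) : ℤ) := by exact_mod_cast this
      rw [hX]
      push_cast at h7 ⊢
      linarith
    set u := (((x.2 : ℕ) * d.p ^ e / d.P : ℕ) : ℤ)
    set u' := (((x'.2 : ℕ) * d.p ^ e / d.P : ℕ) : ℤ)
    set b := (((x.2 : ℕ) * d.p ^ e % d.P : ℕ) : ℤ) with hb
    set b' := (((x'.2 : ℕ) * d.p ^ e % d.P : ℕ) : ℤ) with hb'
    have hu := hdiv x.2
    have hu' := hdiv x'.2
    have hb0 : 0 ≤ b := by positivity
    have hb0' : 0 ≤ b' := by positivity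
    have hbP : b < d.P := by rw [hb]; exact_mod_cast Nat.mod_lt _ d.P_pos
    have hbP' : b' < d.P := by rw [hb']; exact_mod_cast Nat.mod_lt _ d.P_pos
    have hPpos : (0 : ℤ) < d.P := by exact_mod_cast d.P_pos
    set Q : ℤ := d.g * d.q' with hQ
    have hQabs : |Q| = ((d.g * d.q'.natAbs : ℕ) : ℤ) := by
      rw [hQ, abs_mul, Nat.abs_cast]
      push_cast
      rfl
    have hXbig : (d.P : ℤ) * (|Q| + 2 * C + 1) < X := by
      rw [hQabs, hX]
      exact_mod_cast he1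
    -- multiply by P
    have key : (d.P : ℤ) * (-(X * (x.1 : ℕ) + Q * u) - -(X * (x'.1 : ℕ) + Q * u')) =
        -(X * ((d.P : ℤ) * (((x.1 : ℕ) : ℤ) - (x'.1 : ℕ)) + Q * (((x.2 : ℕ) : ℤ) - (x'.2 : ℕ)))) +
          Q * (b - b') := by
      have e1 : (d.P : ℤ) * (Q * u) = Q * ((x.2 : ℕ) * X - b) := by rw [← hu]; ring
      have e2 : (d.P : ℤ) * (Q * u') = Q * ((x'.2 : ℕ) * X - b') := by rw [← hu']; ring
      linear_combination (-1 : ℤ) * e1 + e2
    set D := (d.P : ℤ) * (((x.1 : ℕ) : ℤ) - (x'.1 : ℕ)) + Q * (((x.2 : ℕ) : ℤ) - (x'.2 : ℕ))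
    set c := (-(X * (x.1 : ℕ) + Q * u) - -(X * (x'.1 : ℕ) + Q * u'))
    have hD1 : 1 ≤ |D| := Int.one_le_abs hD
    have hXpos : 0 < X := lt_of_le_of_lt (by positivity) hXbig
    have hbb : |b - b'| ≤ d.P := by
      rw [abs_le]
      constructor <;> linarith
    have h8 : X ≤ |X * D| := by
      rw [abs_mul, abs_of_pos hXpos]
      nlinarith
    have h9 : |X * D| ≤ |(d.P : ℤ) * c| + |Q * (b - b')| := by
      have : X * D = -((d.P : ℤ) * c) + Q * (b - b') := by rw [key]; ring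
      rw [this]
      refine (abs_add_le _ _).trans ?_
      rw [abs_neg]
    have h10 : |Q * (b - b')| ≤ |Q| * d.P := by
      rw [abs_mul]
      exact mul_le_mul_of_nonneg_left hbb (abs_nonneg _)
    have h9' : |(d.P : ℤ) * c| = d.P * |c| := by rw [abs_mul, abs_of_pos hPpos]
    rw [h9'] at h9
    have h11 : (d.P : ℤ) * (2 * C + 1) < d.P * |c| := by linarith
    have h12 := lt_of_mul_lt_mul_left h11 hPpos.le
    linarith

/-- The orbit span. -/
def W : Set (ℤ → V) := {z | ∃ ψ ∈ PG d.G, ψ d.y = z}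

lemma inj_of_win {C D : ℕ} {z z' : ℤ → V} (hz : ∀ i : ℤ, i < -(C : ℤ) ∨ (D : ℤ) < i → z i = 0)
    (hz' : ∀ i : ℤ, i < -(C : ℤ) ∨ (D : ℤ) < i → z' i = 0)
    (h : (fun m : Fin (C + D + 1) => z ((m : ℕ) - C)) = fun m : Fin (C + D + 1) => z' ((m : ℕ) - C)) :
    z = z' := by
  funext i
  by_cases hi : i < -(C : ℤ) ∨ (D : ℤ) < i
  · rw [hz i hi, hz' i hi]
  · push Not at hi
    have h1 : (i + C).toNat < C + D + 1 := by omega
    have h2 := congrFun h ⟨(i + C).toNat, h1⟩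
    simp only at h2
    have h3 : (((i + C).toNat : ℕ) : ℤ) - C = i := by omega
    rwa [h3] at h2

lemma W_finite [Finite V] : d.W.Finite := by
  obtain ⟨C, hC⟩ := d.exists_C
  have h1 : ∀ z ∈ d.W, ∀ i : ℤ, i < -(C : ℤ) ∨ (C : ℤ) < i → z i = 0 := by
    rintro z ⟨ψ, hψ, rfl⟩ i hi
    have := hC ψ hψ 0 (Nat.zero_le _)
    rw [pow_zero] at this
    apply this
    rcases hi with hi | hi
    · exact lt_of_lt_of_le (by omega) (neg_le_abs i)
    · exact lt_of_lt_of_le hi (le_abs_self i)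
  have : Finite (Fin (C + C + 1) → V) := inferInstance
  have h2 : Function.Injective (fun z : d.W => fun m : Fin (C + C + 1) => (z : ℤ → V) ((m : ℕ) - C)) := by
    intro z z' h
    apply Subtype.ext
    exact inj_of_win (h1 z z.2) (h1 z' z'.2) h
  have := Finite.of_injective _ h2
  exact Set.toFinite _

theorem count [Finite V] [Nontrivial V] :
    ∃ c, ∀ n, Nat.card d.W ^ (n * d.P') ≤ Nat.card V ^ (n + c) := by
  obtain ⟨C, hC⟩ := d.exists_C
  refine ⟨2 * C + 1, fun n => ?_⟩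
  have := d.W_finite.to_subtype
  choose ψ hψ hψy using fun z : d.W => z.2
  set Φ : (Fin n × Fin d.P' → d.W) → (ℤ → V) := fun w =>
    (∑ x, (sh (x.1 : ℕ) * (d.F ^ (x.2 : ℕ) * ψ (w x)) : AddMonoid.End (ℤ → V))) d.y with hΦ
  have happ : ∀ w, Φ w = ∑ x : Fin n × Fin d.P', (sh (x.1 : ℕ) : AddMonoid.End (ℤ → V))
      ((d.F ^ (x.2 : ℕ)) (ψ (w x) d.y)) := by
    intro w
    exact AddMonoidHom.finsetSum_apply _ _ _
  have hwin : ∀ w, ∀ i : ℤ, i < -((n + C : ℕ) : ℤ) ∨ (C : ℤ) < i → Φ w i = 0 := by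
    intro w i hi
    rw [happ, Finset.sum_apply]
    apply Finset.sum_eq_zero
    intro x _
    rw [sh_apply]
    have hx := x.1.2
    have hx2 : (x.2 : ℕ) ≤ d.P := by
      have := x.2.2
      have h3 : d.P' ≤ d.P := Nat.le_mul_of_pos_left _ d.hg
      omega
    apply hC _ (hψ _) _ hx2
    rcases hi with hi | hi
    · refine lt_of_lt_of_le ?_ (neg_le_abs _)
      push_cast at hi
      omega
    · refine lt_of_lt_of_le ?_ (le_abs_self _)
      omega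
  have hinj : Function.Injective (fun w => fun m : Fin ((n + C) + C + 1) =>
      Φ w ((m : ℕ) - ((n + C : ℕ) : ℤ))) := by
    intro w w' h
    have h1 : Φ w = Φ w' := inj_of_win (hwin w) (hwin w') h
    have h2 := d.indep n (fun x => ψ (w x) - ψ (w' x)) (fun x => sub_mem (hψ _) (hψ _)) ?_
    · funext x
      apply Subtype.ext
      rw [← hψy (w x), ← hψy (w' x)]
      exact sub_eq_zero.1 (h2 x)
    · have h3 : ∀ x : Fin n × Fin d.P', (sh (x.1 : ℕ) * (d.F ^ (x.2 : ℕ) * (ψ (w x) - ψ (w' x))) :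
          AddMonoid.End (ℤ → V)) = sh (x.1 : ℕ) * (d.F ^ (x.2 : ℕ) * ψ (w x)) -
            sh (x.1 : ℕ) * (d.F ^ (x.2 : ℕ) * ψ (w' x)) := by
        intro x
        rw [mul_sub, mul_sub]
      rw [Finset.sum_congr rfl (fun x _ => h3 x), Finset.sum_sub_distrib]
      exact sub_eq_zero.2 h1
  have h4 := Nat.card_le_card_of_injective _ hinj
  rw [Nat.card_fun, Nat.card_fun, Nat.card_prod, Nat.card_fin, Nat.card_fin, Nat.card_fin] at h4
  rwa [show n + C + C + 1 = n + (2 * C + 1) by ring] at h4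

lemma W_ge_two [Finite V] : 2 ≤ Nat.card d.W := by
  have := d.W_finite.to_subtype
  have h1 : (0 : ℤ → V) ∈ d.W := ⟨0, zero_mem _, rfl⟩
  have h2 : d.y ∈ d.W := ⟨1, AddSubgroup.subset_closure ⟨0, by simp⟩, rfl⟩
  have h3 : Nontrivial d.W := ⟨⟨_, h2⟩, ⟨_, h1⟩, fun h => d.hy (congrArg Subtype.val h)⟩
  exact Finite.one_lt_card

theorem W_pow_le [Finite V] [Nontrivial V] : Nat.card d.W ^ d.P' ≤ Nat.card V := by
  by_contra hlt
  push Not at hlt
  obtain ⟨c, hc⟩ := d.count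
  set v := Nat.card V
  have hv : 0 < v := Nat.card_pos
  have hv' : (0 : ℝ) < v := by exact_mod_cast hv
  obtain ⟨n, hn⟩ := pow_unbounded_of_one_lt ((v : ℝ) ^ c) (y := ((v : ℝ) + 1) / v)
    (by rw [lt_div_iff₀ hv']; linarith)
  rw [div_pow, lt_div_iff₀ (by positivity), ← pow_add] at hn
  have h1 : v ^ (c + n) < (v + 1) ^ n := by exact_mod_cast hn
  have h2 : (v + 1) ^ n ≤ (Nat.card d.W ^ d.P') ^ n := Nat.pow_le_pow_left hlt n
  have h3 := hc n
  rw [← pow_mul, mul_comm] at h2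
  rw [add_comm] at h3
  omega

/-- The bound. -/
theorem bound [Finite V] [Nontrivial V] : ∃ t, 1 ≤ t ∧ d.P' * t ≤ Nat.card V ^ 2 ∧
    (d.F ^ (d.P' * t)) d.y = (sh (t * d.q') : AddMonoid.End (ℤ → V)) d.y := by
  have := d.W_finite.to_subtype
  have hW := d.W_pow_le
  have h2 := d.W_ge_two
  have h3 : d.P' ≤ Nat.card V := by
    have h4 : d.P' < 2 ^ d.P' := Nat.lt_two_pow_self
    have h5 : 2 ^ d.P' ≤ Nat.card d.W ^ d.P' := Nat.pow_le_pow_left h2 _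
    omega
  have h4 : Nat.card d.W ≤ Nat.card V := by
    refine le_trans ?_ hW
    exact Nat.le_self_pow d.hP'.ne' _
  have hmem : ∀ b : ℕ, (d.G ^ b) d.y ∈ d.W := fun b =>
    ⟨d.G ^ b, AddSubgroup.subset_closure ⟨b, rfl⟩, rfl⟩
  have hninj : ¬ Function.Injective (fun b : Fin (Nat.card d.W + 1) =>
      (⟨(d.G ^ (b : ℕ)) d.y, hmem b⟩ : d.W)) := by
    intro hinj
    have h5 := Nat.card_le_card_of_injective _ hinj
    rw [Nat.card_fin] at h5
    exact Nat.not_succ_le_self _ h5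
  have key : ∀ b b' : ℕ, b < b' → (d.G ^ b) d.y = (d.G ^ b') d.y → (d.G ^ (b' - b)) d.y = d.y := by
    intro b b' hlt h
    have hfix := pow_fix d.G_fix b
    obtain ⟨m, hm⟩ := Nat.exists_eq_succ_of_ne_zero d.hg.ne'
    have e1 : d.g * b = m * b + b := by rw [hm, Nat.succ_mul]
    have e2 : (d.G ^ (m * b)) ((d.G ^ b) d.y) = d.y := by
      rw [← comp_apply, ← pow_add, ← e1]
      exact hfix
    have e3 : (d.G ^ (m * b)) ((d.G ^ b') d.y) = (d.G ^ (b' - b)) d.y := by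
      rw [← comp_apply, ← pow_add, show m * b + b' = (b' - b) + d.g * b by rw [e1]; omega, pow_add,
        comp_apply, hfix]
    rw [← e3, ← h, e2]
  obtain ⟨t, ht1, ht2, ht⟩ : ∃ t, 1 ≤ t ∧ t ≤ Nat.card d.W ∧ (d.G ^ t) d.y = d.y := by
    simp only [Function.Injective, not_forall] at hninj
    obtain ⟨b, b', hbb, hne⟩ := hninj
    have h5 : (d.G ^ (b : ℕ)) d.y = (d.G ^ (b' : ℕ)) d.y := congrArg Subtype.val hbb
    have hne' : (b : ℕ) ≠ b' := fun h => hne (Fin.ext h)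
    have hb := b.2
    have hb' := b'.2
    rcases lt_or_gt_of_ne hne' with hlt | hlt
    · exact ⟨b' - b, by omega, by omega, key _ _ hlt h5⟩
    · exact ⟨b - b', by omega, by omega, key _ _ hlt h5.symm⟩
  refine ⟨t, ht1, ?_, ?_⟩
  · rw [sq]
    exact Nat.mul_le_mul h3 (ht2.trans h4)
  · rw [G_pow, comp_apply] at ht
    have h6 := congrArg (sh (t * d.q') : AddMonoid.End (ℤ → V)) ht
    rw [← comp_apply, sh_mul, add_neg_cancel, sh_zero] at h6
    exact h6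

end Dat

/-- Over an elementary abelian group the minimal period of a soliton is at most the square of the
order. -/
theorem period_bound [Finite V] {p : ℕ} (hp : p.Prime) (hV : ∀ v : V, p • v = 0)
    {F : AddMonoid.End (ℤ → V)} {r : ℕ} (hF : Loc F r) (hcom : ∀ q, Commute F (sh q))
    (hex : ∃ (P : ℕ) (q : ℤ) (y : ℤ → V), 1 ≤ P ∧ y ≠ 0 ∧ (Function.support y).Finite ∧
      (F ^ P) y = (sh q : AddMonoid.End (ℤ → V)) y) :
    ∃ (P : ℕ) (q : ℤ) (y : ℤ → V), 1 ≤ P ∧ P ≤ Nat.card V ^ 2 ∧ y ≠ 0 ∧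
      (Function.support y).Finite ∧ (F ^ P) y = (sh q : AddMonoid.End (ℤ → V)) y := by
  classical
  obtain ⟨q, y, hP, hy, hfs, h⟩ := Nat.find_spec hex
  set P := Nat.find hex with hPdef
  refine ⟨P, q, y, hP, ?_, hy, hfs, h⟩
  have hmin : ∀ P1 : ℕ, (∃ (q : ℤ) (y : ℤ → V), 1 ≤ P1 ∧ y ≠ 0 ∧ (Function.support y).Finite ∧
      (F ^ P1) y = (sh q : AddMonoid.End (ℤ → V)) y) → P ≤ P1 := fun P1 hP1 => Nat.find_min' hex hP1
  have : Nontrivial V := by
    by_contra hn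
    rw [not_nontrivial_iff_subsingleton] at hn
    apply hy
    funext i
    exact Subsingleton.elim _ _
  set g := Int.gcd P q with hg
  have hPZ : (P : ℤ) ≠ 0 := by exact_mod_cast (by omega : P ≠ 0)
  have hg0 : 0 < g := Int.gcd_pos_of_ne_zero_left _ hPZ
  obtain ⟨a, b, hcop, ha, hb⟩ := Int.exists_gcd_one (m := (P : ℤ)) (n := q) hg0
  have hgZ : (0 : ℤ) < (g : ℤ) := by exact_mod_cast hg0
  have hapos : 0 < a := by
    by_contra hc
    push Not at hc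
    have h1 : (P : ℤ) ≤ 0 := by
      rw [ha]
      exact mul_nonpos_of_nonpos_of_nonneg hc hgZ.le
    omega
  obtain ⟨P', rfl⟩ : ∃ P' : ℕ, a = P' := ⟨a.toNat, by omega⟩
  have hPeq : P = g * P' := by
    have : (P : ℤ) = ((g * P' : ℕ) : ℤ) := by rw [ha]; push_cast; ring
    exact_mod_cast this
  have hqeq : q = g * b := by rw [hb]; ring
  have hP'pos : 0 < P' := by omega
  -- `p` does not divide `g`
  have hpg : ¬ p ∣ g := by
    rintro ⟨g1, hg1⟩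
    have hg1pos : 0 < g1 := by
      rcases Nat.eq_zero_or_pos g1 with h0 | h0
      · rw [h0, mul_zero] at hg1
        omega
      · exact h0
    obtain ⟨y1, hy1, hfs1, h1⟩ := reduce hp hV hF hcom (P1 := g1 * P') (q1 := g1 * b) hy hfs (by
      have e1 : p * (g1 * P') = P := by rw [hPeq, hg1]; ring
      have e2 : (p : ℤ) * (g1 * b) = q := by rw [hqeq, hg1]; push_cast; ring
      rw [e1, e2]
      exact h)
    have h2 := hmin (g1 * P') ⟨_, y1, Nat.mul_pos hg1pos hP'pos, hy1, hfs1, h1⟩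
    have h3 : 2 * (g1 * P') ≤ P := by
      rw [hPeq, hg1, mul_assoc]
      exact Nat.mul_le_mul_right _ hp.two_le
    have h4 : 0 < g1 * P' := Nat.mul_pos hg1pos hP'pos
    omega
  let d : Dat V := ⟨p, hp, hV, F, r, hF, hcom, P', b, g, hP'pos, hg0,
    Int.isCoprime_iff_gcd_eq_one.2 hcop, (Nat.Prime.coprime_iff_not_dvd hp).2 hpg, y, hy, hfs, by
      rw [← hPeq, ← hqeq]
      exact h⟩
  obtain ⟨t, ht1, ht2, ht⟩ := d.bound
  exact (hmin (P' * t) ⟨_, y, Nat.mul_pos hP'pos ht1, hy, hfs, ht⟩).trans ht2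

end Pool.Agent.R569.SOL
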