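import Mathlib
import Pool.Agent.R569.SOL.Count

set_option autoImplicit false

/-! Solitons of additive cellular automata and a bounded search. -/

namespace Pool.Agent.R569.SOL

/-- A map on configurations has a soliton: a pair of distinct configurations that differ in
finitely many cells, such that the set of cells where the orbits differ has bounded diameter. -/
def HasSoliton {A : Type} (F : (ℤ → A) → (ℤ → A)) : Prop :=
  ∃ x y : ℤ → A, x ≠ y ∧ {i | x i ≠ y i}.Finite ∧ ∃ D : ℕ, ∀ t : ℕ, ∀ i j : ℤ,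
    F^[t] x i ≠ F^[t] y i → F^[t] x j ≠ F^[t] y j → |i - j| ≤ D

variable {A : Type} [AddCommGroup A]

/-- A finite nonzero configuration is mapped to zero. -/
def Ker (F : AddMonoid.End (ℤ → A)) : Prop :=
  ∃ y : ℤ → A, y ≠ 0 ∧ (Function.support y).Finite ∧ F y = 0

/-- A finite nonzero configuration is mapped to a translate of itself. -/
def Per (F : AddMonoid.End (ℤ → A)) (P : ℕ) : Prop :=
  ∃ (q : ℤ) (y : ℤ → A), 1 ≤ P ∧ y ≠ 0 ∧ (Function.support y).Finite ∧
    (F ^ P) y = (sh q : AddMonoid.End (ℤ → A)) y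

lemma iter_eq (F : AddMonoid.End (ℤ → A)) (t : ℕ) (x : ℤ → A) : F^[t] x = (F ^ t) x := by
  induction t with
  | zero => rfl
  | succ t ih => rw [Function.iterate_succ_apply', ih, pow_succ']; rfl

lemma per_iter {F : AddMonoid.End (ℤ → A)} (hcom : ∀ q, Commute F (sh q)) {P : ℕ} {q : ℤ}
    {y : ℤ → A} (h : (F ^ P) y = (sh q : AddMonoid.End (ℤ → A)) y) (u : ℕ) :
    (F ^ (P * u)) y = (sh (q * u) : AddMonoid.End (ℤ → A)) y := by
  induction u with
  | zero => simp [sh_zero]
  | succ u ih =>
    rw [Nat.mul_succ, pow_add, comp_apply, h, ← comp_apply, ((hcom q).pow_left _).eq, comp_apply,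
      ih, ← comp_apply, sh_mul]
    congr 3
    push_cast
    ring

lemma soliton_of {F : AddMonoid.End (ℤ → A)} {r : ℕ} (hF : Loc F r) (hcom : ∀ q, Commute F (sh q))
    (h : Ker F ∨ ∃ P, Per F P) : HasSoliton F := by
  rcases h with ⟨y, hy, hfs, h⟩ | ⟨P, q, y, hP, hy, hfs, h⟩
  · obtain ⟨C, hC⟩ := exists_win hfs
    refine ⟨y, 0, hy, hfs, 2 * C, fun t i j hi hj => ?_⟩
    rw [iter_eq, iter_eq, map_zero] at hi hj
    rcases Nat.eq_zero_or_pos t with h0 | h0
    · subst h0
      rw [pow_zero] at hi hj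
      have h1 : |i| ≤ C := by
        by_contra hc
        exact hi (hC i (not_le.1 hc))
      have h2 : |j| ≤ C := by
        by_contra hc
        exact hj (hC j (not_le.1 hc))
      have := abs_sub i j
      push_cast
      omega
    · obtain ⟨s, rfl⟩ := Nat.exists_eq_succ_of_ne_zero h0.ne'
      rw [pow_succ, comp_apply, h, map_zero] at hi
      exact absurd rfl hi
  · obtain ⟨C, hC⟩ := exists_win hfs
    have hC' : ∀ s ≤ P, Win (C + P * r) ((F ^ s) y) := fun s hs =>
      (hC.apply_pow hF s).mono (by gcongr)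
    refine ⟨y, 0, hy, hfs, 2 * (C + P * r), fun t i j hi hj => ?_⟩
    rw [iter_eq, iter_eq, map_zero] at hi hj
    have h1 : (F ^ t) y = (sh (q * (t / P : ℕ)) : AddMonoid.End (ℤ → A)) ((F ^ (t % P)) y) := by
      conv_lhs => rw [← Nat.mod_add_div t P, pow_add, comp_apply, per_iter hcom h]
      rw [← comp_apply, ((hcom _).pow_left _).eq, comp_apply]
    rw [h1, sh_apply] at hi hj
    have h3 := hC' (t % P) (Nat.mod_lt _ hP).le
    have h4 : |i + q * (t / P : ℕ)| ≤ (C + P * r : ℕ) := by
      by_contra hc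
      exact hi (h3 _ (not_le.1 hc))
    have h5 : |j + q * (t / P : ℕ)| ≤ (C + P * r : ℕ) := by
      by_contra hc
      exact hj (h3 _ (not_le.1 hc))
    have h6 := abs_sub (i + q * (t / P : ℕ)) (j + q * (t / P : ℕ))
    have h7 : i + q * (t / P : ℕ) - (j + q * (t / P : ℕ)) = i - j := by ring
    rw [h7] at h6
    push_cast at *
    linarith

lemma of_soliton [Finite A] {F : AddMonoid.End (ℤ → A)} {r : ℕ} (hF : Loc F r)
    (h : HasSoliton F) : Ker F ∨ ∃ P, Per F P := by
  obtain ⟨x, y, hxy, hfin, D, hD⟩ := h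
  set z := x - y with hz
  have hz0 : z ≠ 0 := sub_ne_zero.2 hxy
  have hzfs : (Function.support z).Finite := by
    convert hfin using 1
    ext i
    simp [hz, sub_eq_zero]
  have hFz : ∀ t i, (F ^ t) z i ≠ 0 ↔ F^[t] x i ≠ F^[t] y i := by
    intro t i
    rw [hz, map_sub, iter_eq, iter_eq]
    exact sub_ne_zero
  by_cases hk : ∃ t : ℕ, (F ^ t) z = 0
  · left
    classical
    have h1 := Nat.find_spec hk
    have h2 : Nat.find hk ≠ 0 := by
      intro h0
      rw [h0] at h1
      exact hz0 (by simpa using h1)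
    obtain ⟨t, ht⟩ := Nat.exists_eq_succ_of_ne_zero h2
    refine ⟨(F ^ t) z, Nat.find_min hk (by omega), pow_fs hF hzfs t, ?_⟩
    rw [ht, Nat.succ_eq_add_one, pow_succ', comp_apply] at h1
    exact h1
  · right
    push Not at hk
    have hne : ∀ t, ∃ m : ℤ, (F ^ t) z m ≠ 0 ∧ ∀ i, (F ^ t) z i ≠ 0 → m ≤ i := by
      intro t
      have h1 := pow_fs hF hzfs t
      have h2 : h1.toFinset.Nonempty := by
        obtain ⟨i, hi⟩ := Function.ne_iff.1 (hk t)
        exact ⟨i, by simpa using hi⟩
      refine ⟨h1.toFinset.min' h2, ?_, fun i hi => Finset.min'_le _ _ (by simpa using hi)⟩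
      have := Finset.min'_mem _ h2
      simpa using this
    choose m hm1 hm2 using hne
    have hm3 : ∀ t i, (F ^ t) z i ≠ 0 → i ≤ m t + D := by
      intro t i hi
      have h1 := hD t i (m t) ((hFz t i).1 hi) ((hFz t (m t)).1 (hm1 t))
      have := le_abs_self (i - m t)
      omega
    obtain ⟨t, t', hne, hpat⟩ := Finite.exists_ne_map_eq_of_infinite
      (fun (t : ℕ) (k : Fin (D + 1)) => (F ^ t) z (m t + (k : ℕ)))
    have key : ∀ t t' : ℕ, t < t' → ((fun (k : Fin (D + 1)) => (F ^ t) z (m t + (k : ℕ))) =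
        fun (k : Fin (D + 1)) => (F ^ t') z (m t' + (k : ℕ))) → ∃ P, Per F P := by
      intro t t' hlt hpat
      refine ⟨t' - t, m t - m t', (F ^ t) z, by omega, hk t, pow_fs hF hzfs t, ?_⟩
      rw [← comp_apply, ← pow_add, show t' - t + t = t' by omega]
      funext i
      rw [sh_apply]
      by_cases hi : m t' ≤ i ∧ i ≤ m t' + D
      · have h1 := congrFun hpat ⟨(i - m t').toNat, by omega⟩
        simp only at h1
        have h2 : (((i - m t').toNat : ℕ) : ℤ) = i - m t' := by omega
        rw [h2] at h1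
        rw [show i + (m t - m t') = m t + (i - m t') by ring, h1,
          show m t' + (i - m t') = i by ring]
      · have h1 : (F ^ t') z i = 0 := by
          by_contra hc
          exact hi ⟨hm2 t' i hc, hm3 t' i hc⟩
        have h2 : (F ^ t) z (i + (m t - m t')) = 0 := by
          by_contra hc
          have h3 := hm2 t _ hc
          have h4 := hm3 t _ hc
          exact hi ⟨by omega, by omega⟩
        rw [h1, h2]
    rcases lt_or_gt_of_ne hne with hlt | hlt
    · exact key t t' hlt hpat
    · exact key t' t hlt hpat.symm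

/-! ### Restriction to the elements of prime order -/

/-- The elements killed by `p`. -/
def Tor (A : Type) [AddCommGroup A] (p : ℕ) : AddSubgroup A where
  carrier := {a | p • a = 0}
  zero_mem' := smul_zero p
  add_mem' {a b} ha hb := by
    show p • (a + b) = 0
    rw [smul_add, show p • a = 0 from ha, show p • b = 0 from hb, add_zero]
  neg_mem' {a} ha := by
    show p • -a = 0
    rw [smul_neg, show p • a = 0 from ha, neg_zero]

lemma mem_tor {p : ℕ} {a : A} : a ∈ Tor A p ↔ p • a = 0 := Iff.rfl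

/-- The restriction of an additive map. -/
def res (F : AddMonoid.End (ℤ → A)) (p : ℕ) : AddMonoid.End (ℤ → Tor A p) where
  toFun y i := ⟨F (fun j => (y j : A)) i, by
    rw [mem_tor]
    have h1 : p • F (fun j => (y j : A)) = 0 := by
      rw [← map_nsmul]
      have : p • (fun j => (y j : A)) = 0 := by
        funext j
        exact (y j).2
      rw [this, map_zero]
    exact congrFun h1 i⟩
  map_zero' := by
    funext i
    apply Subtype.ext
    have : (fun j : ℤ => (((0 : ℤ → Tor A p) j : Tor A p) : A)) = 0 := rfl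
    simp only [this, map_zero]
    rfl
  map_add' y z := by
    funext i
    apply Subtype.ext
    have : (fun j : ℤ => (((y + z) j : Tor A p) : A)) = (fun j => (y j : A)) + fun j => (z j : A) := rfl
    simp only [this, map_add]
    rfl

lemma res_apply (F : AddMonoid.End (ℤ → A)) (p : ℕ) (y : ℤ → Tor A p) (i : ℤ) :
    ((res F p y i : Tor A p) : A) = F (fun j => (y j : A)) i := rfl

lemma res_pow (F : AddMonoid.End (ℤ → A)) (p n : ℕ) (y : ℤ → Tor A p) :
    (fun i => (((res F p ^ n) y i : Tor A p) : A)) = (F ^ n) (fun j => (y j : A)) := by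
  induction n with
  | zero => rfl
  | succ n ih =>
    rw [pow_succ', pow_succ', comp_apply, comp_apply, ← ih]
    rfl

lemma res_loc {F : AddMonoid.End (ℤ → A)} {r : ℕ} (hF : Loc F r) (p : ℕ) : Loc (res F p) r := by
  intro y i h
  apply Subtype.ext
  rw [res_apply]
  exact hF _ _ (fun j hj => by rw [h j hj]; rfl)

lemma res_com {F : AddMonoid.End (ℤ → A)} (hcom : ∀ q, Commute F (sh q)) (p : ℕ) (q : ℤ) :
    Commute (res F p) (sh q) := by
  ext y i
  have := DFunLike.congr_fun (hcom q).eq (fun j => (y j : A))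
  exact congrFun this i

lemma per_bound [Finite A] {F : AddMonoid.End (ℤ → A)} {r : ℕ} (hF : Loc F r)
    (hcom : ∀ q, Commute F (sh q)) (h : ∃ P, Per F P) : ∃ P, P ≤ Nat.card A ^ 2 ∧ Per F P := by
  obtain ⟨P, q, y, hP, hy, hfs, h⟩ := h
  have hN : 0 < Nat.card A := Nat.card_pos
  have hNy : Nat.card A • y = 0 := by
    funext i
    exact card_nsmul_eq_zero'
  have hfo : 0 < addOrderOf y := by
    rw [addOrderOf_pos_iff, isOfFinAddOrder_iff_nsmul_eq_zero]
    exact ⟨_, hN, hNy⟩
  have hne1 : addOrderOf y ≠ 1 := by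
    rw [Ne, AddMonoid.addOrderOf_eq_one_iff]
    exact hy
  obtain ⟨p, hp, k, hk⟩ := Nat.exists_prime_and_dvd hne1
  have hk0 : 0 < k := by
    rcases Nat.eq_zero_or_pos k with h0 | h0
    · rw [h0, mul_zero] at hk
      omega
    · exact h0
  have hky : k • y ≠ 0 := by
    intro h0
    have h1 := addOrderOf_dvd_of_nsmul_eq_zero h0
    have h2 := Nat.le_of_dvd hk0 h1
    rw [hk] at h2
    have := hp.two_le
    nlinarith
  have hpky : p • k • y = 0 := by
    rw [← mul_nsmul', ← hk]
    exact addOrderOf_nsmul_eq_zero y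
  set y' : ℤ → Tor A p := fun i => ⟨(k • y) i, congrFun hpky i⟩ with hy'
  have hcoe : (fun j => (y' j : A)) = k • y := rfl
  obtain ⟨P1, q1, y1, hP1, hb, hy1, hfs1, h1⟩ := period_bound hp (V := Tor A p)
    (fun v => Subtype.ext v.2) (res_loc hF p) (res_com hcom p) ⟨P, q, y', hP, by
      intro h0
      apply hky
      rw [← hcoe, h0]
      rfl, by
      apply hfs.subset
      intro i hi
      by_contra hc
      apply hi
      apply Subtype.ext
      show (k • y) i = 0
      rw [Pi.smul_apply, Function.notMem_support.1 hc, smul_zero], by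
      have h2 := res_pow F p P y'
      rw [hcoe, map_nsmul, h] at h2
      funext i
      apply Subtype.ext
      exact congrFun h2 i⟩
  refine ⟨P1, ?_, q1, fun j => (y1 j : A), hP1, ?_, ?_, ?_⟩
  · refine hb.trans (Nat.pow_le_pow_left ?_ 2)
    exact Nat.card_le_card_of_injective _ Subtype.val_injective
  · intro h0
    apply hy1
    funext i
    exact Subtype.ext (congrFun h0 i)
  · apply hfs1.subset
    intro i hi hc
    apply hi
    show ((y1 i : Tor A p) : A) = 0
    rw [hc]
    rfl
  · rw [← res_pow, h1]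
    rfl

end Pool.Agent.R569.SOL
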