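import Mathlib
import Pool.Agent.R569.SOL.Sol

set_option autoImplicit false

/-! Cutting and pasting finite configurations killed by a local map. -/

namespace Pool.Agent.R569.SOL

variable {A : Type} [AddCommGroup A]

/-- A finite configuration that starts at `0` and ends before `B`. -/
def At (B : ℕ) (y : ℤ → A) : Prop := y 0 ≠ 0 ∧ ∀ i, y i ≠ 0 → 0 ≤ i ∧ i < B

lemma At.mono {B C : ℕ} {y : ℤ → A} (h : At B y) (hBC : B ≤ C) : At C y := by
  refine ⟨h.1, fun i hi => ?_⟩
  have := h.2 i hi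
  have h2 : (B : ℤ) ≤ C := by exact_mod_cast hBC
  omega

lemma At.fs {B : ℕ} {y : ℤ → A} (h : At B y) : (Function.support y).Finite := by
  apply (Set.finite_Icc (0 : ℤ) B).subset
  intro i hi
  have := h.2 i hi
  exact ⟨this.1, this.2.le⟩

lemma exists_ends {y : ℤ → A} (h0 : y ≠ 0) (hfs : (Function.support y).Finite) :
    ∃ a b : ℤ, y a ≠ 0 ∧ y b ≠ 0 ∧ ∀ i, y i ≠ 0 → a ≤ i ∧ i ≤ b := by
  have h2 : hfs.toFinset.Nonempty := by
    obtain ⟨i, hi⟩ := Function.ne_iff.1 h0
    exact ⟨i, by simpa using hi⟩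
  refine ⟨hfs.toFinset.min' h2, hfs.toFinset.max' h2, ?_, ?_, fun i hi =>
    ⟨Finset.min'_le _ _ (by simpa using hi), Finset.le_max' _ _ (by simpa using hi)⟩⟩
  · have := Finset.min'_mem _ h2
    simpa using this
  · have := Finset.max'_mem _ h2
    simpa using this

/-- The translate of a finite configuration to the origin. -/
lemma exists_at {M : AddMonoid.End (ℤ → A)} (hcom : ∀ q, Commute M (sh q)) {y : ℤ → A}
    (h0 : y ≠ 0) (hfs : (Function.support y).Finite) (hM : M y = 0) :
    ∃ B y', At B y' ∧ M y' = 0 := by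
  obtain ⟨a, b, ha, hb, hab⟩ := exists_ends h0 hfs
  have h1 := hab b hb
  refine ⟨(b - a + 1).toNat, sh a y, ⟨?_, fun i hi => ?_⟩, ?_⟩
  · simpa using ha
  · rw [sh_apply] at hi
    have := hab _ hi
    omega
  · rw [← comp_apply, (hcom a).eq, comp_apply, hM, map_zero]

lemma cut_step [Finite A] {M : AddMonoid.End (ℤ → A)} {R : ℕ} (hM : Loc M R)
    (hcom : ∀ q, Commute M (sh q)) {B : ℕ} {y : ℤ → A} (hy : At B y) (h : M y = 0)
    (hB : Nat.card A ^ (2 * R) < B) : ∃ C < B, ∃ z, At C z ∧ M z = 0 := by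
  classical
  have := Fintype.ofFinite A
  obtain ⟨i, i', hne, hw⟩ := Fintype.exists_ne_map_eq_of_card_lt
    (fun (i : Fin (Nat.card A ^ (2 * R) + 1)) (k : Fin (2 * R)) => y (1 + (i : ℕ) + (k : ℕ)))
    (by rw [Fintype.card_fun, Fintype.card_fin, Fintype.card_fin, Nat.card_eq_fintype_card]; omega)
  have key : ∀ i i' : ℕ, i < i' → i' < Nat.card A ^ (2 * R) + 1 →
      (∀ k : ℕ, k < 2 * R → y (1 + (i : ℕ) + (k : ℕ)) = y (1 + (i' : ℕ) + (k : ℕ))) →
      ∃ C < B, ∃ z, At C z ∧ M z = 0 := by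
    intro i i' hlt hi' hw
    set d : ℕ := i' - i with hd
    set z : ℤ → A := fun n => if n < 1 + i then y n else y (n + d) with hz
    have hz1 : ∀ n : ℤ, n < 1 + i + 2 * R → z n = y n := by
      intro n hn
      by_cases hc : n < 1 + i
      · simp only [hz, hc, if_true]
      · simp only [hz, hc, if_false]
        have h1 := hw (n - (1 + i)).toNat (by omega)
        have h2 : (((n - (1 + i)).toNat : ℕ) : ℤ) = n - (1 + i) := by omega
        rw [h2] at h1
        rw [show n + (d : ℤ) = 1 + (i' : ℕ) + (n - (1 + i)) by omega, ← h1]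
        congr 1
        ring
    have hz2 : ∀ n : ℤ, 1 + i ≤ n → z n = y (n + d) := by
      intro n hn
      simp only [hz, not_lt.2 hn, if_false]
    refine ⟨B - d, by omega, z, ⟨?_, fun n hn => ?_⟩, ?_⟩
    · rw [hz1 0 (by omega)]
      exact hy.1
    · by_cases hc : n < 1 + i
      · rw [hz1 n (by omega)] at hn
        have := hy.2 n hn
        omega
      · rw [hz2 n (by omega)] at hn
        have := hy.2 _ hn
        omega
    · funext c
      by_cases hc : c < 1 + i + R
      · have h1 : M (z - y) c = 0 := by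
          apply hM
          intro j hj
          have h2 := abs_le.1 hj
          show z j - y j = 0
          rw [hz1 j (by omega), sub_self]
        rw [map_sub, h] at h1
        simpa using h1
      · have h1 : M (z - sh d y) c = 0 := by
          apply hM
          intro j hj
          have h2 := abs_le.1 hj
          show z j - y (j + d) = 0
          rw [hz2 j (by omega), sub_self]
        rw [map_sub] at h1
        have h2 : M ((sh d : AddMonoid.End (ℤ → A)) y) = 0 := by
          rw [← comp_apply, (hcom d).eq, comp_apply, h, map_zero]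
        rw [h2] at h1
        simpa using h1
  have hne' : (i : ℕ) ≠ i' := fun hc => hne (Fin.ext hc)
  rcases lt_or_gt_of_ne hne' with hlt | hlt
  · exact key i i' hlt i'.2 (fun k hk => congrFun hw ⟨k, hk⟩)
  · exact key i' i hlt i.2 (fun k hk => (congrFun hw ⟨k, hk⟩).symm)

lemma cut [Finite A] {M : AddMonoid.End (ℤ → A)} {R : ℕ} (hM : Loc M R)
    (hcom : ∀ q, Commute M (sh q)) {y : ℤ → A}
    (h0 : y ≠ 0) (hfs : (Function.support y).Finite) (h : M y = 0) :
    ∃ z, At (Nat.card A ^ (2 * R)) z ∧ M z = 0 := by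
  classical
  have hex : ∃ B, ∃ z, At B z ∧ M z = 0 := exists_at hcom h0 hfs h
  obtain ⟨z, hz, hMz⟩ := Nat.find_spec hex
  by_cases hc : Nat.find hex ≤ Nat.card A ^ (2 * R)
  · exact ⟨z, hz.mono hc, hMz⟩
  · obtain ⟨C, hC, hC2⟩ := cut_step hM hcom hz hMz (not_le.1 hc)
    exact absurd hC2 (Nat.find_min hex hC)

lemma loc_pow {F : AddMonoid.End (ℤ → A)} {r : ℕ} (hF : Loc F r) (n : ℕ) : Loc (F ^ n) (n * r) := by
  induction n with
  | zero =>
    intro y i h
    exact h i (by simp)
  | succ n ih =>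
    intro y i h
    rw [pow_succ, comp_apply]
    apply ih
    intro j hj
    apply hF
    intro k hk
    apply h
    have h1 := abs_add_le (k - j) (j - i)
    have h2 : k - j + (j - i) = k - i := by ring
    rw [h2] at h1
    push_cast at *
    nlinarith

lemma shift_le {F : AddMonoid.End (ℤ → A)} {r : ℕ} (hF : Loc F r) {y : ℤ → A} {q : ℤ}
    (h0 : y ≠ 0) (hfs : (Function.support y).Finite) (h : F y = (sh q : AddMonoid.End (ℤ → A)) y) :
    |q| ≤ r := by
  obtain ⟨a, b, ha, hb, hab⟩ := exists_ends h0 hfs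
  rw [abs_le]
  constructor
  · have h1 : F y (b - q) ≠ 0 := by
      rw [h, sh_apply, sub_add_cancel]
      exact hb
    by_contra hc
    apply h1
    apply hF
    intro j hj
    by_contra hj2
    have h3 := hab j hj2
    have h4 := abs_le.1 hj
    omega
  · have h1 : F y (a - q) ≠ 0 := by
      rw [h, sh_apply, sub_add_cancel]
      exact ha
    by_contra hc
    apply h1
    apply hF
    intro j hj
    by_contra hj2
    have h3 := hab j hj2
    have h4 := abs_le.1 hj
    omega

/-- A bounded search suffices. -/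
theorem bounded [Finite A] {F : AddMonoid.End (ℤ → A)} {r : ℕ} (hF : Loc F r)
    (hcom : ∀ q, Commute F (sh q)) : HasSoliton F ↔
    ∃ y, At (Nat.card A ^ (2 * r * Nat.card A ^ 2)) y ∧ (F y = 0 ∨ ∃ P ≤ Nat.card A ^ 2,
      1 ≤ P ∧ ∃ q : ℤ, |q| ≤ P * r ∧ (F ^ P) y = (sh q : AddMonoid.End (ℤ → A)) y) := by
  have hN : 0 < Nat.card A := Nat.card_pos
  constructor
  · intro h
    rcases of_soliton hF h with ⟨y, hy, hfs, hk⟩ | hper
    · obtain ⟨z, hz, hMz⟩ := cut hF hcom hy hfs hk
      refine ⟨z, hz.mono (Nat.pow_le_pow_right hN ?_), Or.inl hMz⟩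
      have : 1 ≤ Nat.card A ^ 2 := Nat.one_le_pow _ _ hN
      nlinarith
    · obtain ⟨P, hPle, q, y, hP, hy, hfs, h1⟩ := per_bound hF hcom hper
      have hq : |q| ≤ (P * r : ℕ) := shift_le (loc_pow hF P) hy hfs h1
      obtain ⟨z, hz, hMz⟩ := cut (M := F ^ P - sh q) (R := P * r) (by
        intro y i hyi
        show (F ^ P) y i - y (i + q) = 0
        rw [loc_pow hF P y i hyi, hyi (i + q) (by simpa using hq), sub_self])
        (fun q' => ((hcom q').pow_left P).sub_left (sh_commute q q')) hy hfs (by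
        show (F ^ P) y - (sh q : AddMonoid.End (ℤ → A)) y = 0
        rw [h1, sub_self])
      refine ⟨z, hz.mono (Nat.pow_le_pow_right hN ?_), Or.inr ⟨P, hPle, hP, q, by exact_mod_cast hq, ?_⟩⟩
      · calc 2 * (P * r) ≤ 2 * (Nat.card A ^ 2 * r) := by gcongr
          _ = 2 * r * Nat.card A ^ 2 := by ring
      · have : (F ^ P) z - (sh q : AddMonoid.End (ℤ → A)) z = 0 := hMz
        exact sub_eq_zero.1 this
  · rintro ⟨y, hy, h⟩
    have hy0 : y ≠ 0 := fun h0 => hy.1 (by rw [h0]; rfl)
    apply soliton_of hF hcom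
    rcases h with h | ⟨P, -, hP, q, -, h⟩
    · exact Or.inl ⟨y, hy0, hy.fs, h⟩
    · exact Or.inr ⟨P, q, y, hP, hy0, hy.fs, h⟩

end Pool.Agent.R569.SOL
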