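import Mathlib

set_option autoImplicit false

/-! The decision procedure and its primitive recursiveness. -/

namespace Pool.Agent.R569.SOL

/-- An input: the number of elements, the table of the addition, the radius, and the tables of
the homomorphisms. -/
abbrev Inp := ℕ × List (List ℕ) × ℕ × List (List ℕ)

/-- Looking up an entry of a table. -/
def tab (T : List (List ℕ)) (a b : ℕ) : ℕ := (T.getD a []).getD b 0

/-- A constant list. -/
def rep (n e : ℕ) : List ℕ := (List.range n).map (fun _ => e)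

/-- One step of the automaton on a finite configuration. -/
def stepL (c : Inp) (e : ℕ) (L : List ℕ) : List ℕ :=
  (List.range (L.length + 2 * c.2.2.1)).map (fun i =>
    (List.range (2 * c.2.2.1 + 1)).foldl (fun s j =>
      tab c.2.1 s (tab c.2.2.2 j (((rep (2 * c.2.2.1) e ++ L)[i + j]?).getD e))) e)

/-- Several steps. -/
def itL (c : Inp) (e : ℕ) (L : List ℕ) (P : ℕ) : List ℕ := (stepL c e)^[P] L

/-- All lists of a given length. -/
def lists (N : ℕ) : ℕ → List (List ℕ)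
  | 0 => [[]]
  | B + 1 => (lists N B).flatMap (fun l => (List.range N).map (fun a => a :: l))

lemma mem_lists {N B : ℕ} {l : List ℕ} : l ∈ lists N B ↔ l.length = B ∧ ∀ a ∈ l, a < N := by
  induction B generalizing l with
  | zero =>
    simp only [lists, List.mem_singleton, List.length_eq_zero_iff]
    constructor
    · rintro rfl
      simp
    · exact fun h => h.1
  | succ B ih =>
    simp only [lists, List.mem_flatMap, List.mem_map, List.mem_range]
    constructor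
    · rintro ⟨l', hl', a, ha, rfl⟩
      obtain ⟨h1, h2⟩ := ih.1 hl'
      refine ⟨by simp [h1], ?_⟩
      intro b hb
      rcases List.mem_cons.1 hb with rfl | hb
      · exact ha
      · exact h2 b hb
    · rintro ⟨h1, h2⟩
      cases l with
      | nil => simp at h1
      | cons a l =>
        exact ⟨l, ih.2 ⟨by simpa using h1, fun b hb => h2 b (List.mem_cons_of_mem _ hb)⟩, a,
          h2 a List.mem_cons_self, rfl⟩

/-- The test for a candidate. -/
def Test (c : Inp) (e : ℕ) (z : List ℕ) : Prop :=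
  z[0]?.getD e ≠ e ∧ (stepL c e z = rep (z.length + 2 * c.2.2.1) e ∨
    ∃ P ∈ List.range (c.1 ^ 2 + 1), 1 ≤ P ∧ ∃ a ∈ List.range (2 * (c.2.2.1 * P) + 1),
      itL c e z P = rep a e ++ z ++ rep (2 * (c.2.2.1 * P) - a) e)

/-- The bounded search. -/
def Good (c : Inp) : Prop :=
  ∃ e ∈ List.range c.1, tab c.2.1 e e = e ∧
    ∃ z ∈ lists c.1 (c.1 ^ (2 * c.2.2.1 * c.1 ^ 2)), Test c e z

open Primrec

lemma prim_tab : Primrec fun q : List (List ℕ) × ℕ × ℕ => tab q.1 q.2.1 q.2.2 :=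
  (Primrec.list_getD 0).comp ((Primrec.list_getD []).comp fst (fst.comp snd)) (snd.comp snd)

lemma tab_comp {α : Type} [Primcodable α] {f : α → List (List ℕ)} {g h : α → ℕ}
    (hf : Primrec f) (hg : Primrec g) (hh : Primrec h) :
    Primrec fun a => tab (f a) (g a) (h a) := by
  have := prim_tab.comp (Primrec.pair hf (Primrec.pair hg hh))
  exact this

lemma prim_rep : Primrec₂ rep :=
  (Primrec.list_map (Primrec.list_range.comp fst) (snd.comp fst).to₂)

/-- The summand in the step. -/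
def look (c : Inp) (e : ℕ) (L : List ℕ) (i s j : ℕ) : ℕ :=
  tab c.2.1 s (tab c.2.2.2 j (((rep (2 * c.2.2.1) e ++ L)[i + j]?).getD e))

/-- An entry of the result. -/
def ent (c : Inp) (e : ℕ) (L : List ℕ) (i : ℕ) : ℕ :=
  (List.range (2 * c.2.2.1 + 1)).foldl (fun s j => look c e L i s j) e

lemma stepL_eq (c : Inp) (e : ℕ) (L : List ℕ) : stepL c e L =
    (List.range (L.length + 2 * c.2.2.1)).map (fun i => ent c e L i) := rfl

/-- The context. -/
abbrev Ctx := (Inp × ℕ) × List ℕ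

lemma prim_r : Primrec fun q : Ctx => 2 * q.1.1.2.2.1 := by
  have h1 : Primrec fun q : Ctx => q.1.1 := fst.comp fst
  have h2 : Primrec fun q : Ctx => q.1.1.2.2 := snd.comp (snd.comp h1)
  have h3 : Primrec fun q : Ctx => q.1.1.2.2.1 := fst.comp h2
  exact Primrec.nat_mul.comp (Primrec.const 2) h3

lemma prim_look : Primrec fun w : (Ctx × ℕ) × (ℕ × ℕ) =>
    look w.1.1.1.1 w.1.1.1.2 w.1.1.2 w.1.2 w.2.1 w.2.2 := by
  have h0 : Primrec fun w : (Ctx × ℕ) × (ℕ × ℕ) => w.1.1 := fst.comp fst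
  have hc : Primrec fun w : (Ctx × ℕ) × (ℕ × ℕ) => w.1.1.1.1 := fst.comp (fst.comp h0)
  have he : Primrec fun w : (Ctx × ℕ) × (ℕ × ℕ) => w.1.1.1.2 := snd.comp (fst.comp h0)
  have hL : Primrec fun w : (Ctx × ℕ) × (ℕ × ℕ) => w.1.1.2 := snd.comp h0
  have hi : Primrec fun w : (Ctx × ℕ) × (ℕ × ℕ) => w.1.2 := snd.comp fst
  have hs : Primrec fun w : (Ctx × ℕ) × (ℕ × ℕ) => w.2.1 := fst.comp snd
  have hj : Primrec fun w : (Ctx × ℕ) × (ℕ × ℕ) => w.2.2 := snd.comp snd
  have hT : Primrec fun w : (Ctx × ℕ) × (ℕ × ℕ) => w.1.1.1.1.2.1 := fst.comp (snd.comp hc)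
  have hH : Primrec fun w : (Ctx × ℕ) × (ℕ × ℕ) => w.1.1.1.1.2.2.2 :=
    snd.comp (snd.comp (snd.comp hc))
  have hrep : Primrec fun w : (Ctx × ℕ) × (ℕ × ℕ) => rep (2 * w.1.1.1.1.2.2.1) w.1.1.1.2 :=
    prim_rep.comp (prim_r.comp h0) he
  have hpad : Primrec fun w : (Ctx × ℕ) × (ℕ × ℕ) =>
      rep (2 * w.1.1.1.1.2.2.1) w.1.1.1.2 ++ w.1.1.2 := Primrec.list_append.comp hrep hL
  have hij : Primrec fun w : (Ctx × ℕ) × (ℕ × ℕ) => w.1.2 + w.2.2 := Primrec.nat_add.comp hi hj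
  have hget : Primrec fun w : (Ctx × ℕ) × (ℕ × ℕ) =>
      (rep (2 * w.1.1.1.1.2.2.1) w.1.1.1.2 ++ w.1.1.2)[w.1.2 + w.2.2]? :=
    Primrec.list_getElem?.comp hpad hij
  have hgetD : Primrec fun w : (Ctx × ℕ) × (ℕ × ℕ) =>
      ((rep (2 * w.1.1.1.1.2.2.1) w.1.1.1.2 ++ w.1.1.2)[w.1.2 + w.2.2]?).getD w.1.1.1.2 :=
    Primrec.option_getD.comp hget he
  have ht1 : Primrec fun w : (Ctx × ℕ) × (ℕ × ℕ) => tab w.1.1.1.1.2.2.2 w.2.2
      (((rep (2 * w.1.1.1.1.2.2.1) w.1.1.1.2 ++ w.1.1.2)[w.1.2 + w.2.2]?).getD w.1.1.1.2) :=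
    tab_comp hH hj hgetD
  exact tab_comp hT hs ht1

lemma prim_ent : Primrec fun w : Ctx × ℕ => ent w.1.1.1 w.1.1.2 w.1.2 w.2 := by
  have h1 : Primrec fun w : Ctx × ℕ => List.range (2 * w.1.1.1.2.2.1 + 1) :=
    Primrec.list_range.comp (Primrec.succ.comp (prim_r.comp fst))
  have h2 : Primrec fun w : Ctx × ℕ => w.1.1.2 := snd.comp (fst.comp fst)
  have h3 : Primrec₂ fun (w : Ctx × ℕ) (sj : ℕ × ℕ) =>
      look w.1.1.1 w.1.1.2 w.1.2 w.2 sj.1 sj.2 := prim_look
  have h4 := Primrec.list_foldl h1 h2 h3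
  exact h4

lemma prim_step : Primrec fun q : Ctx => stepL q.1.1 q.1.2 q.2 := by
  have h1 : Primrec fun q : Ctx => List.range (q.2.length + 2 * q.1.1.2.2.1) :=
    Primrec.list_range.comp (Primrec.nat_add.comp (Primrec.list_length.comp snd) prim_r)
  have h2 : Primrec₂ fun (q : Ctx) (i : ℕ) => ent q.1.1 q.1.2 q.2 i := prim_ent
  have h3 := Primrec.list_map h1 h2
  exact h3

lemma step_comp {α : Type} [Primcodable α] {f : α → Inp} {g : α → ℕ} {h : α → List ℕ}
    (hf : Primrec f) (hg : Primrec g) (hh : Primrec h) :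
    Primrec fun a => stepL (f a) (g a) (h a) := by
  have := prim_step.comp (Primrec.pair (Primrec.pair hf hg) hh)
  exact this

lemma prim_it : Primrec fun q : Ctx × ℕ => itL q.1.1.1 q.1.1.2 q.1.2 q.2 := by
  have h1 : Primrec₂ fun (q : Ctx × ℕ) (L : List ℕ) => stepL q.1.1.1 q.1.1.2 L :=
    step_comp (fst.comp (fst.comp (fst.comp fst))) (snd.comp (fst.comp (fst.comp fst))) snd
  have h2 := Primrec.nat_iterate (snd : Primrec fun q : Ctx × ℕ => q.2)
    (snd.comp fst : Primrec fun q : Ctx × ℕ => q.1.2) h1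
  exact h2

lemma it_comp {α : Type} [Primcodable α] {f : α → Inp} {g : α → ℕ} {h : α → List ℕ} {k : α → ℕ}
    (hf : Primrec f) (hg : Primrec g) (hh : Primrec h) (hk : Primrec k) :
    Primrec fun a => itL (f a) (g a) (h a) (k a) := by
  have := prim_it.comp (Primrec.pair (Primrec.pair (Primrec.pair hf hg) hh) hk)
  exact this

/-- Adding a letter in front. -/
def conses (N : ℕ) (l : List ℕ) : List (List ℕ) := (List.range N).map (fun a => a :: l)

lemma prim_conses : Primrec₂ conses := by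
  have h1 : Primrec₂ fun (q : ℕ × List ℕ) (a : ℕ) => a :: q.2 :=
    Primrec.list_cons.comp snd (snd.comp fst)
  exact Primrec.list_map (Primrec.list_range.comp fst) h1

lemma prim_lists : Primrec₂ lists := by
  have h0 : Primrec₂ fun (w : ℕ × ℕ × List (List ℕ)) (l : List ℕ) => conses w.1 l :=
    prim_conses.comp (fst.comp fst) snd
  have h1 : Primrec₂ fun (N : ℕ) (q : ℕ × List (List ℕ)) => q.2.flatMap (conses N) :=
    Primrec.list_flatMap (snd.comp snd) h0
  have h := Primrec.nat_rec (Primrec.const ([[]] : List (List ℕ))) h1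
  refine h.of_eq ?_
  intro N B
  induction B with
  | zero => rfl
  | succ B ih =>
    rw [lists, ← ih]
    rfl

lemma prim_pow : Primrec₂ fun a b : ℕ => a ^ b :=
  Primrec₂.unpaired'.1 Nat.Primrec.pow

lemma prim_test : PrimrecPred fun q : Ctx => Test q.1.1 q.1.2 q.2 := by
  have hc : Primrec fun q : Ctx => q.1.1 := fst.comp fst
  have he : Primrec fun q : Ctx => q.1.2 := snd.comp fst
  have hN : Primrec fun q : Ctx => q.1.1.1 := fst.comp hc
  have hr : Primrec fun q : Ctx => q.1.1.2.2.1 := fst.comp (snd.comp (snd.comp hc))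
  have hrP : Primrec fun w : Ctx × ℕ => 2 * (w.1.1.1.2.2.1 * w.2) :=
    Primrec.nat_mul.comp (Primrec.const 2) (Primrec.nat_mul.comp (hr.comp fst) snd)
  have hA : PrimrecPred fun q : Ctx => q.2[0]?.getD q.1.2 ≠ q.1.2 := by
    have h1 : Primrec fun q : Ctx => q.2[0]? := Primrec.list_getElem?.comp snd (Primrec.const 0)
    have h2 : Primrec fun q : Ctx => q.2[0]?.getD q.1.2 := Primrec.option_getD.comp h1 he
    exact (Primrec.eq.comp h2 he).not
  have hB : PrimrecPred fun q : Ctx => stepL q.1.1 q.1.2 q.2 =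
      rep (q.2.length + 2 * q.1.1.2.2.1) q.1.2 := by
    have h1 : Primrec fun q : Ctx => rep (q.2.length + 2 * q.1.1.2.2.1) q.1.2 :=
      prim_rep.comp (Primrec.nat_add.comp (Primrec.list_length.comp snd) prim_r) he
    exact Primrec.eq.comp prim_step h1
  have h1 : PrimrecRel fun (a : ℕ) (w : Ctx × ℕ) =>
      itL w.1.1.1 w.1.1.2 w.1.2 w.2 = rep a w.1.1.2 ++ w.1.2 ++
        rep (2 * (w.1.1.1.2.2.1 * w.2) - a) w.1.1.2 := by
    have g1 : Primrec fun v : ℕ × (Ctx × ℕ) => v.2.1.1.2 := he.comp (fst.comp snd)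
    have g2 : Primrec fun v : ℕ × (Ctx × ℕ) => v.2.1.2 := snd.comp (fst.comp snd)
    have g3 : Primrec fun v : ℕ × (Ctx × ℕ) => itL v.2.1.1.1 v.2.1.1.2 v.2.1.2 v.2.2 :=
      it_comp (fst.comp (fst.comp (fst.comp snd))) g1 g2 (snd.comp snd)
    have g4 : Primrec fun v : ℕ × (Ctx × ℕ) => rep v.1 v.2.1.1.2 := prim_rep.comp fst g1
    have g5 : Primrec fun v : ℕ × (Ctx × ℕ) => 2 * (v.2.1.1.1.2.2.1 * v.2.2) - v.1 :=
      Primrec.nat_sub.comp (hrP.comp snd) fst
    have g6 : Primrec fun v : ℕ × (Ctx × ℕ) =>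
        rep (2 * (v.2.1.1.1.2.2.1 * v.2.2) - v.1) v.2.1.1.2 := prim_rep.comp g5 g1
    have g7 : Primrec fun v : ℕ × (Ctx × ℕ) => rep v.1 v.2.1.1.2 ++ v.2.1.2 ++
        rep (2 * (v.2.1.1.1.2.2.1 * v.2.2) - v.1) v.2.1.1.2 :=
      Primrec.list_append.comp (Primrec.list_append.comp g4 g2) g6
    exact Primrec.eq.comp g3 g7
  have h2 := h1.exists_mem_list
  have h3 : PrimrecRel fun (P : ℕ) (q : Ctx) => 1 ≤ P ∧
      ∃ a ∈ List.range (2 * (q.1.1.2.2.1 * P) + 1),
      itL q.1.1 q.1.2 q.2 P = rep a q.1.2 ++ q.2 ++ rep (2 * (q.1.1.2.2.1 * P) - a) q.1.2 := by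
    have g1 : Primrec fun v : ℕ × Ctx => (v.2, v.1) := Primrec.pair snd fst
    have g2 : Primrec fun v : ℕ × Ctx => List.range (2 * (v.2.1.1.2.2.1 * v.1) + 1) :=
      Primrec.list_range.comp (Primrec.succ.comp (Primrec.nat_mul.comp (Primrec.const 2)
        (Primrec.nat_mul.comp (hr.comp snd) fst)))
    have g3 : PrimrecPred fun v : ℕ × Ctx => 1 ≤ v.1 := Primrec.nat_le.comp (Primrec.const 1) fst
    have g5 := h2.comp g2 g1
    exact PrimrecPred.and g3 g5
  have g4 : Primrec fun q : Ctx => List.range (q.1.1.1 ^ 2 + 1) :=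
    Primrec.list_range.comp (Primrec.succ.comp (prim_pow.comp hN (Primrec.const 2)))
  have hC := h3.exists_mem_list.comp g4 Primrec.id
  exact PrimrecPred.and hA (PrimrecPred.or hB hC)

lemma prim_good : PrimrecPred Good := by
  have h0 := prim_test.comp (Primrec.pair snd fst : Primrec fun w : List ℕ × (Inp × ℕ) => (w.2, w.1))
  have h1 : PrimrecRel fun (z : List ℕ) (w : Inp × ℕ) => Test w.1 w.2 z := h0
  have h2 := h1.exists_mem_list
  have hN : Primrec fun c : Inp => c.1 := fst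
  have hr : Primrec fun c : Inp => c.2.2.1 := fst.comp (snd.comp snd)
  have hN2 : Primrec fun c : Inp => c.1 ^ 2 := prim_pow.comp hN (Primrec.const 2)
  have h2r : Primrec fun c : Inp => 2 * c.2.2.1 := Primrec.nat_mul.comp (Primrec.const 2) hr
  have hB0 : Primrec fun c : Inp => c.1 ^ (2 * c.2.2.1 * c.1 ^ 2) :=
    prim_pow.comp hN (Primrec.nat_mul.comp h2r hN2)
  have hB : Primrec fun c : Inp => lists c.1 (c.1 ^ (2 * c.2.2.1 * c.1 ^ 2)) :=
    prim_lists.comp hN hB0
  have h3 : PrimrecRel fun (e : ℕ) (c : Inp) => tab c.2.1 e e = e ∧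
      ∃ z ∈ lists c.1 (c.1 ^ (2 * c.2.2.1 * c.1 ^ 2)), Test c e z := by
    have g1 : Primrec fun v : ℕ × Inp => v.2.2.1 := fst.comp (snd.comp snd)
    have g2 : Primrec fun v : ℕ × Inp => tab v.2.2.1 v.1 v.1 :=
      tab_comp g1 fst fst
    have g3 : PrimrecPred fun v : ℕ × Inp => tab v.2.2.1 v.1 v.1 = v.1 := Primrec.eq.comp g2 fst
    have g4 : Primrec fun v : ℕ × Inp => (v.2, v.1) := Primrec.pair snd fst
    have g5 := h2.comp (hB.comp (snd : Primrec fun v : ℕ × Inp => v.2)) g4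
    exact PrimrecPred.and g3 g5
  have h4 := h3.exists_mem_list.comp (Primrec.list_range.comp hN) Primrec.id
  exact h4

end Pool.Agent.R569.SOL
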