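import Mathlib
import Pool.Agent.R569.SOL.Cut
import Pool.Agent.R569.SOL.Prim

set_option autoImplicit false

/-! Abelian cellular automata, their codes, and the correctness of the decision procedure. -/

namespace Pool.Agent.R569.SOL

variable {A : Type} [AddCommGroup A]

/-- The abelian cellular automaton of radius `r` with the homomorphisms `h 0, …, h (2 r)`
(for the neighbours `-r, …, r`). -/
def ca (r : ℕ) (h : Fin (2 * r + 1) → (A →+ A)) : AddMonoid.End (ℤ → A) where
  toFun x i := ∑ j : Fin (2 * r + 1), h j (x (i + ((j : ℕ) : ℤ) - r))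
  map_zero' := by
    funext i
    simp
  map_add' x y := by
    funext i
    simp [Finset.sum_add_distrib]

lemma ca_apply (r : ℕ) (h : Fin (2 * r + 1) → (A →+ A)) (x : ℤ → A) (i : ℤ) :
    ca r h x i = ∑ j : Fin (2 * r + 1), h j (x (i + ((j : ℕ) : ℤ) - r)) := rfl

lemma ca_loc (r : ℕ) (h : Fin (2 * r + 1) → (A →+ A)) : Loc (ca r h) r := by
  intro y i hy
  rw [ca_apply]
  apply Finset.sum_eq_zero
  intro j _
  rw [hy, map_zero]
  have := j.2
  rw [abs_le]
  omega

lemma ca_com (r : ℕ) (h : Fin (2 * r + 1) → (A →+ A)) (q : ℤ) : Commute (ca r h) (sh q) := by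
  ext y i
  show ca r h (sh q y) i = ca r h y (i + q)
  rw [ca_apply, ca_apply]
  apply Finset.sum_congr rfl
  intro j _
  rw [sh_apply]
  congr 2
  ring

/-- The code of an abelian cellular automaton: the number of elements, the table of the addition,
the radius, the tables of the homomorphisms, with respect to a numbering of the group. -/
def code {N : ℕ} (e : A ≃ Fin N) (r : ℕ) (h : Fin (2 * r + 1) → (A →+ A)) : Inp :=
  (N, List.ofFn (fun a : Fin N => List.ofFn (fun b : Fin N => (e (e.symm a + e.symm b) : ℕ))), r,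
    List.ofFn (fun j => List.ofFn (fun a : Fin N => (e (h j (e.symm a)) : ℕ))))

section

variable {N : ℕ} (e : A ≃ Fin N)

/-- The element with a given number. -/
def val (a : ℕ) : A := if h : a < N then e.symm ⟨a, h⟩ else 0

lemma val_idx (x : A) : val e (e x) = x := by
  simp [val]

lemma idx_val {a : ℕ} (h : a < N) : (e (val e a) : ℕ) = a := by
  simp [val, h]

lemma val_inj {a b : ℕ} (ha : a < N) (hb : b < N) (h : val e a = val e b) : a = b := by
  rw [← idx_val e ha, ← idx_val e hb, h]

lemma tab_of {m : ℕ} (f : Fin m → Fin N → ℕ) {a b : ℕ} (ha : a < m) (hb : b < N) :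
    tab (List.ofFn (fun a => List.ofFn (fun b => f a b))) a b = f ⟨a, ha⟩ ⟨b, hb⟩ := by
  simp [tab, List.getD, ha, hb]

lemma tab_add (r : ℕ) (h : Fin (2 * r + 1) → (A →+ A)) {a b : ℕ} (ha : a < N) (hb : b < N) :
    tab (code e r h).2.1 a b = e (val e a + val e b) := by
  show tab (List.ofFn (fun a : Fin N => List.ofFn
    (fun b : Fin N => (e (e.symm a + e.symm b) : ℕ)))) a b = _
  rw [tab_of (fun (a b : Fin N) => (e (e.symm a + e.symm b) : ℕ)) ha hb]
  simp [val, ha, hb]

lemma tab_hom (r : ℕ) (h : Fin (2 * r + 1) → (A →+ A)) {j a : ℕ} (hj : j < 2 * r + 1)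
    (ha : a < N) : tab (code e r h).2.2.2 j a = e (h ⟨j, hj⟩ (val e a)) := by
  show tab (List.ofFn (fun j => List.ofFn (fun a : Fin N => (e (h j (e.symm a)) : ℕ)))) j a = _
  rw [tab_of (fun (j : Fin (2 * r + 1)) (a : Fin N) => (e (h j (e.symm a)) : ℕ)) hj ha]
  simp [val, ha]

/-- The configuration given by a list that starts at `-off`. -/
def den (off : ℤ) (L : List ℕ) : ℤ → A := fun i =>
  if 0 ≤ i + off then val e (L[(i + off).toNat]?.getD (e 0 : ℕ)) else 0

lemma val_z : val e (e 0 : ℕ) = 0 := val_idx e 0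

lemma den_at (off : ℤ) (L : List ℕ) (k : ℕ) :
    den e off L (k - off) = val e (L[k]?.getD (e 0 : ℕ)) := by
  have h1 : (0 : ℤ) ≤ k - off + off := by omega
  have h2 : (k - off + off : ℤ).toNat = k := by omega
  simp only [den, h1, if_true, h2]

lemma den_neg (off : ℤ) (L : List ℕ) {i : ℤ} (h : i + off < 0) : den e off L i = 0 := by
  simp only [den, not_le.2 h, if_false]

lemma den_ge (off : ℤ) (L : List ℕ) {i : ℤ} (h : (L.length : ℤ) ≤ i + off) :
    den e off L i = 0 := by
  have h1 : (0 : ℤ) ≤ i + off := by omega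
  simp only [den, h1, if_true]
  rw [List.getElem?_eq_none (by omega)]
  exact val_z e

lemma rep_length (n a : ℕ) : (rep n a).length = n := by simp [rep]

lemma rep_get (n a k : ℕ) : (rep n a)[k]?.getD a = a := by
  by_cases hk : k < n
  · simp [rep, hk]
  · rw [List.getElem?_eq_none (by rw [rep_length]; omega)]
    rfl

lemma mem_rep {n a b : ℕ} (h : b ∈ rep n a) : b = a := by
  simp only [rep, List.mem_map] at h
  obtain ⟨_, _, h⟩ := h
  exact h.symm

lemma get_pad (m k z : ℕ) (L : List ℕ) : (rep m z ++ L)[k]?.getD z =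
    if k < m then z else L[k - m]?.getD z := by
  split_ifs with hk
  · rw [List.getElem?_append_left (by rw [rep_length]; exact hk)]
    exact rep_get m z k
  · rw [List.getElem?_append_right (by rw [rep_length]; omega), rep_length]

lemma val_pad (m k : ℕ) (off : ℤ) (L : List ℕ) :
    val e ((rep m (e 0 : ℕ) ++ L)[k]?.getD (e 0 : ℕ)) = den e off L (k - m - off) := by
  rw [get_pad]
  split_ifs with hk
  · rw [den_neg e off L (by omega), val_z]
  · have := den_at e off L (k - m)
    rw [Nat.cast_sub (by omega)] at this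
    rw [this]

lemma lt_pad {m k z : ℕ} (hz : z < N) {L : List ℕ} (hL : ∀ a ∈ L, a < N) :
    (rep m z ++ L)[k]?.getD z < N := by
  rw [get_pad]
  split_ifs with hk
  · exact hz
  · by_cases h : k - m < L.length
    · rw [List.getElem?_eq_getElem h]
      exact hL _ (List.getElem_mem h)
    · rw [List.getElem?_eq_none (by omega)]
      exact hz

lemma fold_eq (r : ℕ) (h : Fin (2 * r + 1) → (A →+ A)) (g : ℕ → ℕ) (m : ℕ)
    (hg : ∀ j < m, g j < N) : (List.range m).foldl (fun s j => tab (code e r h).2.1 s (g j))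
      (e 0 : ℕ) = e (∑ j ∈ Finset.range m, val e (g j)) := by
  induction m with
  | zero => rfl
  | succ m ih =>
    rw [List.range_succ, List.foldl_append, ih (fun j hj => hg j (by omega)),
      Finset.sum_range_succ, List.foldl_cons, List.foldl_nil,
      tab_add e r h (Fin.isLt _) (hg m (by omega)), val_idx]

lemma ent_eq (r : ℕ) (h : Fin (2 * r + 1) → (A →+ A)) {L : List ℕ} (hL : ∀ a ∈ L, a < N) (off : ℤ)
    (i : ℕ) : ent (code e r h) (e 0 : ℕ) L i = e (ca r h (den e off L) (i - (off + r))) := by
  have h1 : ∀ j < 2 * r + 1, tab (code e r h).2.2.2 j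
      (((rep (2 * r) (e 0 : ℕ) ++ L)[i + j]?).getD (e 0 : ℕ)) < N := by
    intro j hj
    rw [tab_hom e r h hj (lt_pad (Fin.isLt _) hL)]
    exact Fin.isLt _
  show (List.range (2 * r + 1)).foldl (fun s j => tab (code e r h).2.1 s
    (tab (code e r h).2.2.2 j (((rep (2 * r) (e 0 : ℕ) ++ L)[i + j]?).getD (e 0 : ℕ)))) (e 0 : ℕ) = _
  rw [fold_eq e r h _ _ h1, ca_apply, Finset.sum_range]
  congr 2
  apply Finset.sum_congr rfl
  intro j _
  rw [tab_hom e r h j.2 (lt_pad (Fin.isLt _) hL), val_idx, val_pad e (2 * r) (i + j) off L]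
  congr 2
  push_cast
  ring

lemma step_length (c : Inp) (z : ℕ) (L : List ℕ) :
    (stepL c z L).length = L.length + 2 * c.2.2.1 := by
  simp [stepL]

lemma step_get (c : Inp) (z : ℕ) (L : List ℕ) {i : ℕ} (hi : i < L.length + 2 * c.2.2.1) :
    (stepL c z L)[i]? = some (ent c z L i) := by
  rw [stepL_eq]
  simp [hi]

lemma step_lt (r : ℕ) (h : Fin (2 * r + 1) → (A →+ A)) {L : List ℕ} (hL : ∀ a ∈ L, a < N) :
    ∀ a ∈ stepL (code e r h) (e 0 : ℕ) L, a < N := by
  intro a ha
  rw [stepL_eq, List.mem_map] at ha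
  obtain ⟨i, -, rfl⟩ := ha
  rw [ent_eq e r h hL 0 i]
  exact Fin.isLt _

lemma step_den (r : ℕ) (h : Fin (2 * r + 1) → (A →+ A)) {L : List ℕ} (hL : ∀ a ∈ L, a < N)
    (off : ℤ) : den e (off + r) (stepL (code e r h) (e 0 : ℕ) L) = ca r h (den e off L) := by
  have hlen := step_length (code e r h) (e 0 : ℕ) L
  have hr : (code e r h).2.2.1 = r := rfl
  rw [hr] at hlen
  funext i
  by_cases h1 : i + (off + r) < 0
  · rw [den_neg e _ _ h1, ca_apply]
    symm
    apply Finset.sum_eq_zero
    intro j _
    have := j.2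
    rw [den_neg e _ _ (by omega), map_zero]
  · by_cases h2 : (L.length : ℤ) + 2 * r ≤ i + (off + r)
    · rw [den_ge e _ _ (by rw [hlen]; push_cast; exact h2), ca_apply]
      symm
      apply Finset.sum_eq_zero
      intro j _
      rw [den_ge e _ _ (by omega), map_zero]
    · obtain ⟨k, hk⟩ := Int.eq_ofNat_of_zero_le (not_lt.1 h1)
      have hi : i = k - (off + r) := by omega
      rw [hi, den_at, step_get _ _ _ (by rw [hr]; omega), Option.getD_some,
        ent_eq e r h hL off k, val_idx]

lemma it_length (c : Inp) (z : ℕ) (L : List ℕ) (P : ℕ) :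
    (itL c z L P).length = L.length + 2 * (c.2.2.1 * P) := by
  induction P with
  | zero => rfl
  | succ P ih =>
    rw [itL, Function.iterate_succ_apply', step_length]
    rw [itL] at ih
    rw [ih]
    ring

lemma it_lt (r : ℕ) (h : Fin (2 * r + 1) → (A →+ A)) {L : List ℕ} (hL : ∀ a ∈ L, a < N) (P : ℕ) :
    ∀ a ∈ itL (code e r h) (e 0 : ℕ) L P, a < N := by
  induction P with
  | zero => exact hL
  | succ P ih =>
    rw [itL, Function.iterate_succ_apply']
    exact step_lt e r h ih

lemma it_den (r : ℕ) (h : Fin (2 * r + 1) → (A →+ A)) {L : List ℕ} (hL : ∀ a ∈ L, a < N)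
    (off : ℤ) (P : ℕ) : den e (off + r * P) (itL (code e r h) (e 0 : ℕ) L P) =
      (ca r h ^ P) (den e off L) := by
  induction P with
  | zero =>
    rw [pow_zero]
    show den e (off + r * (0 : ℕ)) L = den e off L
    congr 1
    simp
  | succ P ih =>
    rw [pow_succ', comp_apply, ← ih, ← step_den e r h (it_lt e r h hL P)]
    rw [itL, Function.iterate_succ_apply', itL]
    congr 1
    push_cast
    ring

lemma den_inj {off : ℤ} {L L' : List ℕ} (hlen : L.length = L'.length) (hL : ∀ a ∈ L, a < N)
    (hL' : ∀ a ∈ L', a < N) (h : den e off L = den e off L') : L = L' := by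
  apply List.ext_getElem hlen
  intro i h1 h2
  have h3 := congrFun h (i - off)
  rw [den_at, den_at, List.getElem?_eq_getElem h1, List.getElem?_eq_getElem h2] at h3
  exact val_inj e (hL _ (List.getElem_mem h1)) (hL' _ (List.getElem_mem h2)) h3

lemma den_rep (off : ℤ) (m : ℕ) : den e off (rep m (e 0 : ℕ)) = 0 := by
  funext i
  simp only [den]
  split_ifs with h
  · rw [rep_get, val_z]
    rfl
  · rfl

lemma den_pad (off : ℤ) (a b : ℕ) (L : List ℕ) :
    den e off (rep a (e 0 : ℕ) ++ L ++ rep b (e 0 : ℕ)) =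
      (sh (off - a) : AddMonoid.End (ℤ → A)) (den e 0 L) := by
  funext i
  rw [sh_apply]
  by_cases h0 : i + off < 0
  · rw [den_neg e _ _ h0, den_neg e _ _ (by omega)]
  · obtain ⟨k, hk⟩ := Int.eq_ofNat_of_zero_le (not_lt.1 h0)
    have hi : i = k - off := by omega
    rw [hi, den_at, List.append_assoc, val_pad e a k 0]
    have h1 : (k - off + (off - a) : ℤ) = k - a - 0 := by ring
    rw [h1]
    by_cases h2 : (k : ℤ) - a - 0 < 0
    · rw [den_neg e _ _ (by omega), den_neg e _ _ (by omega)]
    · obtain ⟨l, hl⟩ := Int.eq_ofNat_of_zero_le (not_lt.1 h2)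
      rw [hl]
      have h3 := den_at e 0 (L ++ rep b (e 0 : ℕ)) l
      have h4 := den_at e 0 L l
      rw [sub_zero] at h3 h4
      rw [h3, h4]
      by_cases h5 : l < L.length
      · rw [List.getElem?_append_left h5]
      · rw [List.getElem?_append_right (by omega), rep_get, List.getElem?_eq_none (by omega)]
        rfl

lemma lt_cat {a b z : ℕ} (hz : z < N) {L : List ℕ} (hL : ∀ a ∈ L, a < N) :
    ∀ x ∈ rep a z ++ L ++ rep b z, x < N := by
  intro x hx
  rcases List.mem_append.1 hx with hx | hx
  · rcases List.mem_append.1 hx with hx | hx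
    · rw [mem_rep hx]
      exact hz
    · exact hL x hx
  · rw [mem_rep hx]
    exact hz

lemma den_at_at {z : List ℕ} (hz : ∀ a ∈ z, a < N) : At z.length (den e 0 z) ↔
    z[0]?.getD (e 0 : ℕ) ≠ (e 0 : ℕ) := by
  have h0 := den_at e 0 z 0
  simp only [Nat.cast_zero, sub_zero] at h0
  constructor
  · intro h hc
    apply h.1
    rw [h0, hc, val_z]
  · intro h
    refine ⟨fun hc => ?_, fun i hi => ?_⟩
    · rw [h0] at hc
      apply h
      have hlt : z[0]?.getD (e 0 : ℕ) < N := by
        have := lt_pad (m := 0) (k := 0) (e 0).isLt hz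
        simpa [rep] using this
      exact val_inj e hlt (e 0).isLt (by rw [hc, val_z])
    · by_contra hc
      apply hi
      by_cases hi0 : i < 0
      · exact den_neg e _ _ (by omega)
      · exact den_ge e _ _ (by omega)

/-- Every configuration in the window is given by a list. -/
lemma exists_list {B : ℕ} {y : ℤ → A} (hy : At B y) : ∃ z : List ℕ, z.length = B ∧
    (∀ a ∈ z, a < N) ∧ den e 0 z = y := by
  refine ⟨(List.range B).map (fun i : ℕ => (e (y (i : ℤ)) : ℕ)), by simp, ?_, ?_⟩
  · intro a ha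
    rw [List.mem_map] at ha
    obtain ⟨i, -, rfl⟩ := ha
    exact Fin.isLt _
  · funext i
    by_cases h : 0 ≤ i ∧ i < B
    · obtain ⟨k, hk⟩ := Int.eq_ofNat_of_zero_le h.1
      subst hk
      have hkB : k < B := by
        have := h.2
        omega
      have h3 := den_at e 0 ((List.range B).map (fun i : ℕ => (e (y (i : ℤ)) : ℕ))) k
      rw [sub_zero] at h3
      rw [h3]
      simp [hkB, val_idx]
    · have h1 : y i = 0 := by
        by_contra hc
        exact h (hy.2 i hc)
      rw [h1]
      by_cases h0 : i < 0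
      · exact den_neg e _ _ (by omega)
      · apply den_ge e _ _
        simp only [List.length_map, List.length_range]
        omega

end

theorem correct {N : ℕ} (e : A ≃ Fin N) (r : ℕ) (h : Fin (2 * r + 1) → (A →+ A)) :
    Good (code e r h) ↔ HasSoliton (ca r h) := by
  have hfin : Finite A := Finite.of_equiv _ e.symm
  have hcard : Nat.card A = N := by
    rw [Nat.card_congr e, Nat.card_eq_fintype_card, Fintype.card_fin]
  rw [bounded (ca_loc r h) (ca_com r h), hcard]
  have hr : (code e r h).2.2.1 = r := rfl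
  have hN : (code e r h).1 = N := rfl
  constructor
  · rintro ⟨z0, hz0, hidem, z, hz, ht0, ht⟩
    rw [hN] at hz hz0 ht
    rw [hr] at hz ht
    rw [List.mem_range] at hz0
    have hz0' : z0 = (e 0 : ℕ) := by
      rw [tab_add e r h hz0 hz0] at hidem
      have h1 : e (val e z0 + val e z0) = e (val e z0) := by
        apply Fin.ext
        rw [hidem, idx_val e hz0]
      have h2 := e.injective h1
      rw [add_eq_left] at h2
      rw [← h2, idx_val e hz0]
    subst hz0'
    obtain ⟨hlen, hlt⟩ := mem_lists.1 hz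
    refine ⟨den e 0 z, ?_, ?_⟩
    · rw [← hlen]
      exact (den_at_at e hlt).2 ht0
    · rcases ht with ht | ⟨P, hP, hP1, a, ha, ht⟩
      · left
        rw [← step_den e r h hlt, ht, den_rep]
      · right
        rw [List.mem_range] at hP ha
        refine ⟨P, by omega, hP1, r * P - a, ?_, ?_⟩
        · rw [abs_le]
          have h1 : (a : ℤ) ≤ 2 * (r * P) := by
            have : a ≤ 2 * (r * P) := by omega
            exact_mod_cast this
          constructor <;> nlinarith
        · rw [← it_den e r h hlt, ht, den_pad]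
          congr 2
          ring
  · rintro ⟨y, hy, h1⟩
    obtain ⟨z, hlen, hlt, rfl⟩ := exists_list e hy
    refine ⟨(e 0 : ℕ), List.mem_range.2 (e 0).isLt, ?_, z, mem_lists.2 ⟨hlen, hlt⟩, ?_, ?_⟩
    · rw [tab_add e r h (e 0).isLt (e 0).isLt, val_z, add_zero]
    · rw [← hlen] at hy
      exact (den_at_at e hlt).1 hy
    · rcases h1 with h1 | ⟨P, hP, hP1, q, hq, h1⟩
      · left
        apply den_inj e (off := 0 + r) (by rw [step_length, rep_length]) (step_lt e r h hlt)
          (fun a ha => by rw [mem_rep ha]; exact (e 0).isLt)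
        rw [step_den e r h hlt, h1, den_rep]
      · right
        rw [abs_le] at hq
        have hc : (0 : ℤ) ≤ r * P - q := by nlinarith
        obtain ⟨a, ha⟩ := Int.eq_ofNat_of_zero_le hc
        have ha' : (r : ℤ) * P - q = (a : ℤ) := ha
        have ha2 : a ≤ 2 * (r * P) := by
          have : (a : ℤ) ≤ 2 * (r * P) := by nlinarith
          exact_mod_cast this
        refine ⟨P, List.mem_range.2 (by rw [hN]; omega), hP1, a, List.mem_range.2 (by
          rw [hr]; omega), ?_⟩
        rw [hr]
        apply den_inj e (off := 0 + r * P) ?_ (it_lt e r h hlt P) (lt_cat (e 0).isLt hlt)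
        · rw [it_den e r h hlt, h1, den_pad]
          congr 2
          omega
        · rw [it_length, List.length_append, List.length_append, rep_length, rep_length, hr]
          omega

end Pool.Agent.R569.SOL
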